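import Pool.Agent.Helper85.BP.Stubs

set_option autoImplicit false

open MeasureTheory Complex FourierTransform Filter Topology
open scoped ENNReal NNReal ComplexConjugate

noncomputable section

namespace Helper85.BP.P

open Helper72.BA Helper85.BP

/-! ### the real inequality -/

theorem i2b_real (θ x s K r : ℝ) (hx : 0 < x) (hs : 0 < s) (hK : 0 < K)
    (hr : 0 < r) (h : x ^ 4 * r ^ 2 ≤ (s ^ 2 * x ^ 2) ^ (1 - θ) * (K * s * x ^ 3) ^ θ) :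
    (2 - θ) * Real.log x ≤ (2 - θ) * Real.log s + θ * Real.log K - 2 * Real.log r := by
  have h2 := Real.log_le_log (by positivity) h
  rw [Real.log_mul (by positivity) (by positivity), Real.log_mul (by positivity) (by positivity),
    Real.log_rpow (by positivity), Real.log_rpow (by positivity), Real.log_pow, Real.log_pow,
    Real.log_mul (by positivity) (by positivity), Real.log_pow, Real.log_pow,
    Real.log_mul (by positivity) (by positivity), Real.log_mul (by positivity) (by positivity),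
    Real.log_pow] at h2
  push_cast at h2
  nlinarith [h2]

theorem Eb_pos' (θ : ℝ) (h0 : 0 < θ) (h1 : θ < 1) : 0 < Eb θ := by
  have h4 : 0 < 4 - θ ^ 2 := by nlinarith
  have h16 : 0 < 16 - θ ^ 2 := by nlinarith
  have h36 : 0 < 36 - θ ^ 2 := by nlinarith
  unfold Eb
  positivity

/-- the constant `π² A₄⁴ (1+8E)/81` -/
def KK24 (θ : ℝ) : ℝ := Real.pi ^ 2 * Ak 2 ^ 4 / 81 * (1 + 8 * Eb θ)

theorem Ak2_pos : 0 < Ak 2 := by
  unfold Ak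
  apply div_pos
  · apply Real.Gamma_pos_of_pos; norm_num
  · apply Real.Gamma_pos_of_pos; norm_num

theorem KK24_pos (θ : ℝ) (h0 : 0 < θ) (h1 : θ < 1) : 0 < KK24 θ := by
  have := Eb_pos' θ h0 h1
  have := Ak2_pos
  unfold KK24
  positivity

theorem C24_pos' (θ : ℝ) (h0 : 0 < θ) (h1 : θ < 1) : 0 < C24 θ := by
  have hE := Eb_pos' θ h0 h1
  have hA := Ak2_pos
  have h2 : 0 < 2 - θ := by linarith
  have h3 : 0 < 2 + θ := by linarith
  unfold C24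
  positivity

theorem i2b_const (θ : ℝ) (h0 : 0 < θ) (h1 : θ < 1) (x s : ℝ) (hx : 0 < x) (hs : 0 < s)
    (h : (2 - θ) * Real.log x ≤ (2 - θ) * Real.log s + θ * Real.log (KK24 θ)
      - 2 * Real.log ((2 - θ) / (2 + θ))) :
    x ≤ (Real.pi ^ (4 / (2 - θ) - 2) * C24 θ ^ (4 / (2 - θ))) * s := by
  have hE := Eb_pos' θ h0 h1
  have hA := Ak2_pos
  have h2 : 0 < 2 - θ := by linarith
  have h3 : 0 < 2 + θ := by linarith
  have hpi := Real.pi_pos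
  have hC := C24_pos' θ h0 h1
  rw [← Real.log_le_log_iff hx (by positivity)]
  have e1 : Real.log (KK24 θ) = 2 * Real.log Real.pi + 4 * Real.log (Ak 2) - 4 * Real.log 3
      + Real.log (1 + 8 * Eb θ) := by
    unfold KK24
    rw [Real.log_mul (by positivity) (by positivity), Real.log_div (by positivity) (by positivity),
      Real.log_mul (by positivity) (by positivity), Real.log_pow, Real.log_pow,
      show (81 : ℝ) = 3 ^ 4 by norm_num, Real.log_pow]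
    push_cast
    ring
  have e2 : Real.log (C24 θ) = 1 / 2 * (Real.log (2 + θ) - Real.log (2 - θ))
      + θ * (Real.log (Ak 2) - Real.log 3) + θ / 4 * Real.log (1 + 8 * Eb θ) := by
    unfold C24
    rw [Real.log_mul (by positivity) (by positivity), Real.log_mul (by positivity) (by positivity),
      Real.log_rpow (by positivity), Real.log_rpow (by positivity), Real.log_rpow (by positivity),
      Real.log_div (by positivity) (by positivity), Real.log_div (by positivity) (by positivity)]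
  rw [Real.log_div (by positivity) (by positivity), e1] at h
  rw [Real.log_mul (by positivity) (by positivity), Real.log_mul (by positivity) (by positivity),
    Real.log_rpow (by positivity), Real.log_rpow (by positivity), e2]
  set X := Real.log x
  set Sg := Real.log s
  set P := Real.log Real.pi
  set A := Real.log (Ak 2)
  set T := Real.log 3
  set E := Real.log (1 + 8 * Eb θ)
  set a := Real.log (2 + θ)
  set b := Real.log (2 - θ)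
  have key : X ≤ Sg + (θ * (2 * P + 4 * A - 4 * T + E) - 2 * (b - a)) / (2 - θ) := by
    rw [← sub_le_iff_le_add', le_div_iff₀ h2]
    linarith
  have e3 : (4 / (2 - θ) - 2) * P + 4 / (2 - θ) * (1 / 2 * (a - b) + θ * (A - T) + θ / 4 * E) + Sg
      = Sg + (θ * (2 * P + 4 * A - 4 * T + E) - 2 * (b - a)) / (2 - θ) := by
    field_simp
    ring
  rw [e3]
  exact key

/-! ### the factor `(2-z)/(2+z)` -/

theorem two_add_ne (z : ℂ) (hz : 0 ≤ z.re) : 2 + z ≠ 0 := by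
  intro h
  have := congrArg Complex.re h
  simp at this
  linarith

theorem frac_le (z : ℂ) (hz : 0 ≤ z.re) : ‖(2 - z) / (2 + z)‖ ≤ 1 := by
  have h2 := two_add_ne z hz
  rw [norm_div, div_le_one (norm_pos_iff.2 h2)]
  rw [Complex.norm_def, Complex.norm_def]
  apply Real.sqrt_le_sqrt
  rw [Complex.normSq_apply, Complex.normSq_apply]
  simp only [Complex.sub_re, Complex.sub_im, Complex.add_re, Complex.add_im, Complex.re_ofNat,
    Complex.im_ofNat]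
  nlinarith

theorem frac_one (τ : ℝ) : ‖(2 - (1 + I * τ)) / (2 + (1 + I * τ))‖ ^ 2 = (1 + τ ^ 2) / (9 + τ ^ 2) := by
  rw [norm_div, div_pow, ← Complex.normSq_eq_norm_sq, ← Complex.normSq_eq_norm_sq,
    Complex.normSq_apply, Complex.normSq_apply]
  simp only [Complex.sub_re, Complex.sub_im, Complex.add_re, Complex.add_im, Complex.re_ofNat,
    Complex.im_ofNat, Complex.one_re, Complex.one_im, Complex.mul_re, Complex.mul_im, Complex.I_re,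
    Complex.I_im, Complex.ofReal_re, Complex.ofReal_im]
  congr 1 <;> ring

/-! ### the constant on the line `Re z = 1` -/

/-- the weight -/
def W24 (θ τ : ℝ) : ℝ := P1 θ τ * ((1 + τ ^ 2) / (9 + τ ^ 2))

theorem const_bound (θ : ℝ) (h0 : 0 < θ) (h1 : θ < 1) :
    ∫ τ, W24 θ τ * ‖Gx (((1 / ((2 : ℕ) : ℝ) : ℝ) : ℂ) + I * ((1 * τ / ((2 : ℕ) : ℝ) : ℝ) : ℂ))‖ ^ (2 * 2) /
      Real.pi ^ 2 ≤ θ * KK24 θ := by
  obtain ⟨-, hc1, -, hP1, -, -, -⟩ := P_facts θ h0 h1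
  obtain ⟨-, hi1⟩ := P_int θ h0 h1 0
  simp only [pow_zero, one_mul] at hi1
  obtain ⟨-, hm1⟩ := P_mass θ h0 h1
  have hpi := Real.pi_pos
  have hA := Ak2_pos
  have hG : ∀ τ : ℝ, ‖Gx (((1 / ((2 : ℕ) : ℝ) : ℝ) : ℂ) + I * ((1 * τ / ((2 : ℕ) : ℝ) : ℝ) : ℂ))‖ ^ (2 * 2) ≤
      (Real.pi * Ak 2) ^ 4 * ((9 + τ ^ 2) ^ 2 / (81 * (1 + τ ^ 2) ^ 2)) := by
    intro τ
    have h := Gx_bound (1/4) (τ/4) (by norm_num) (by norm_num)
    have hv := Gx_val 2 (by norm_num)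
    have e1 : (((2 * (1/4) : ℝ) : ℂ) + I * ((2 * (τ/4) : ℝ) : ℂ)) =
        (((1 / ((2 : ℕ) : ℝ) : ℝ) : ℂ) + I * ((1 * τ / ((2 : ℕ) : ℝ) : ℝ) : ℂ)) := by
      push_cast
      ring
    have e2 : (((2 * (1/4) : ℝ) : ℂ)) = (((1 / ((2 : ℕ) : ℝ) : ℝ)) : ℂ) := by
      push_cast
      ring
    rw [e1, e2, hv] at h
    have h3 : 1 + (τ/4) ^ 2 / (1 - 1/4) ^ 2 = (9 + τ ^ 2) / 9 := by ring
    have h4 : 1 + (τ/4) ^ 2 / (1/4) ^ 2 = (1 + τ ^ 2) := by ring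
    rw [h3, h4] at h
    calc ‖Gx (((1 / ((2 : ℕ) : ℝ) : ℝ) : ℂ) + I * ((1 * τ / ((2 : ℕ) : ℝ) : ℝ) : ℂ))‖ ^ (2 * 2)
        = (‖Gx (((1 / ((2 : ℕ) : ℝ) : ℝ) : ℂ) + I * ((1 * τ / ((2 : ℕ) : ℝ) : ℝ) : ℂ))‖ ^ 2) ^ 2 := by ring
      _ ≤ ((Real.pi * Ak 2) ^ 2 * ((9 + τ ^ 2) / 9 / (1 + τ ^ 2))) ^ 2 :=
          pow_le_pow_left₀ (by positivity) h 2
      _ = _ := by
          have : (1 + τ ^ 2) ≠ 0 := by positivity
          field_simp
          ring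
  have hint : Integrable (fun τ : ℝ => P1 θ τ / (1 + τ ^ 2)) := by
    refine Integrable.mono hi1 ?_ (Eventually.of_forall fun τ => ?_)
    · apply Continuous.aestronglyMeasurable
      exact hc1.div (by fun_prop) (fun τ => by positivity)
    · rw [norm_div]
      apply div_le_self (norm_nonneg _)
      rw [Real.norm_of_nonneg (by positivity)]
      nlinarith [sq_nonneg τ]
  have hpt : ∀ τ : ℝ, W24 θ τ * ‖Gx (((1 / ((2 : ℕ) : ℝ) : ℝ) : ℂ) + I * ((1 * τ / ((2 : ℕ) : ℝ) : ℝ) : ℂ))‖ ^ (2 * 2) /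
      Real.pi ^ 2 ≤ Real.pi ^ 2 * Ak 2 ^ 4 / 81 * (P1 θ τ + 8 * (P1 θ τ / (1 + τ ^ 2))) := by
    intro τ
    have hp := hP1 τ
    have h5 : 0 ≤ W24 θ τ := by unfold W24; positivity
    calc W24 θ τ * ‖Gx (((1 / ((2 : ℕ) : ℝ) : ℝ) : ℂ) + I * ((1 * τ / ((2 : ℕ) : ℝ) : ℝ) : ℂ))‖ ^ (2 * 2) /
      Real.pi ^ 2 ≤ W24 θ τ * ((Real.pi * Ak 2) ^ 4 * ((9 + τ ^ 2) ^ 2 / (81 * (1 + τ ^ 2) ^ 2))) /
          Real.pi ^ 2 := by
          apply div_le_div_of_nonneg_right _ (by positivity)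
          exact mul_le_mul_of_nonneg_left (hG τ) h5
      _ = Real.pi ^ 2 * Ak 2 ^ 4 / 81 * (P1 θ τ + 8 * (P1 θ τ / (1 + τ ^ 2))) := by
          unfold W24
          have : (1 + τ ^ 2) ≠ 0 := by positivity
          have : (9 + τ ^ 2) ≠ 0 := by positivity
          field_simp
          ring
  calc _ ≤ ∫ τ, Real.pi ^ 2 * Ak 2 ^ 4 / 81 * (P1 θ τ + 8 * (P1 θ τ / (1 + τ ^ 2))) := by
        apply integral_mono_of_nonneg (Eventually.of_forall fun τ => ?_)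
          ((hi1.add (hint.const_mul 8)).const_mul _) (Eventually.of_forall hpt)
        have hp := hP1 τ
        simp only [Pi.zero_apply]
        unfold W24
        positivity
    _ = Real.pi ^ 2 * Ak 2 ^ 4 / 81 * (θ + 8 * ∫ τ, P1 θ τ / (1 + τ ^ 2)) := by
        rw [integral_const_mul, integral_add hi1 (hint.const_mul 8), hm1, integral_const_mul]
    _ ≤ Real.pi ^ 2 * Ak 2 ^ 4 / 81 * (θ + 8 * (θ * Eb θ)) := by
        apply mul_le_mul_of_nonneg_left _ (by positivity)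
        linarith [E_bound θ h0 h1]
    _ = θ * KK24 θ := by unfold KK24; ring

/-! ### modified data -/

section core

variable {Y : Type*} [MeasurableSpace Y] {ν : Measure Y} [IsFiniteMeasure ν]

/-- `U Ψ^s` -/
def Up (U : ℂ → Y → ℂ) (Ψ : ℂ → ℝ) (s : ℝ) (ξ : ℂ) (y : Y) : ℂ := U ξ y * ((Ψ ξ ^ s : ℝ) : ℂ)

omit [IsFiniteMeasure ν] in
theorem UD.pos {c1 c2 : ℝ} {U : ℂ → Y → ℂ} {Ψ : ℂ → ℝ} (hU : UD ν c1 c2 U Ψ) (ξ : ℂ) : 0 < Ψ ξ := by
  obtain ⟨c, hc, h⟩ := hU.Ψlow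
  exact hc.trans_le (h ξ)

omit [IsFiniteMeasure ν] in
theorem UD_mod {c1 c2 : ℝ} {U : ℂ → Y → ℂ} {Ψ : ℂ → ℝ} (hU : UD ν c1 c2 U Ψ) (s : ℝ) (hs : 0 < s) :
    UD ν c1 c2 (Up U Ψ (s - 1)) (fun ξ => Ψ ξ ^ s) where
  meas := by
    have h1 : Measurable (fun q : ℂ × Y => U q.1 q.2) := hU.meas
    have h2 : Measurable (fun q : ℂ × Y => ((Ψ q.1 ^ (s - 1) : ℝ) : ℂ)) :=
      Complex.measurable_ofReal.comp ((hU.Ψmeas.comp measurable_fst).pow_const _)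
    exact h1.mul h2
  c1pos := hU.c1pos
  supp := by
    intro ξ y h
    simp only [Up, hU.supp ξ y h, zero_mul]
  bdd := by
    obtain ⟨C, hC⟩ := hU.bdd
    obtain ⟨a, ha, hal⟩ := hU.Ψlow
    obtain ⟨b, hb⟩ := hU.Ψup
    refine ⟨C * (a ^ (s - 1) + |b| ^ (s - 1)), fun ξ y => ?_⟩
    have hp := UD.pos hU ξ
    have hbp : 0 ≤ |b| ^ (s - 1) := by positivity
    have hap : 0 ≤ a ^ (s - 1) := by positivity
    have h1 : Ψ ξ ^ (s - 1) ≤ a ^ (s - 1) + |b| ^ (s - 1) := by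
      rcases le_or_gt 0 (s - 1) with h | h
      · have := Real.rpow_le_rpow hp.le ((hb ξ).trans (le_abs_self b)) h
        linarith
      · have := Real.rpow_le_rpow_of_nonpos ha (hal ξ) h.le
        linarith
    have hC0 : 0 ≤ C := (norm_nonneg _).trans (hC ξ y)
    unfold Up
    rw [norm_mul, Complex.norm_real, Real.norm_of_nonneg (by positivity)]
    exact mul_le_mul (hC ξ y) h1 (by positivity) hC0
  Ψmeas := hU.Ψmeas.pow_const _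
  Ψlow := by
    obtain ⟨a, ha, hal⟩ := hU.Ψlow
    exact ⟨a ^ s, by positivity, fun ξ => Real.rpow_le_rpow ha.le (hal ξ) hs.le⟩
  Ψup := by
    obtain ⟨b, hb⟩ := hU.Ψup
    exact ⟨b ^ s, fun ξ => Real.rpow_le_rpow (UD.pos hU ξ).le (hb ξ) hs.le⟩
  dom := by
    intro ξ
    have hp := UD.pos hU ξ
    have h1 : ∀ y, ‖Up U Ψ (s - 1) ξ y‖ₑ ^ 2 = ENNReal.ofReal (Ψ ξ ^ (s - 1)) ^ 2 * ‖U ξ y‖ₑ ^ 2 := by
      intro y
      unfold Up
      rw [enorm_mul, mul_pow, mul_comm]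
      congr 2
      rw [← ofReal_norm, Complex.norm_real, Real.norm_of_nonneg (by positivity)]
    simp_rw [h1]
    rw [lintegral_const_mul' _ _ (by simp)]
    calc ENNReal.ofReal (Ψ ξ ^ (s - 1)) ^ 2 * ∫⁻ y, ‖U ξ y‖ₑ ^ 2 ∂ν
        ≤ ENNReal.ofReal (Ψ ξ ^ (s - 1)) ^ 2 * ENNReal.ofReal (((‖ξ‖ ^ 2)⁻¹ * Ψ ξ) ^ 2) :=
          mul_le_mul_right (hU.dom ξ) _
      _ = ENNReal.ofReal (((‖ξ‖ ^ 2)⁻¹ * Ψ ξ ^ s) ^ 2) := by
          rw [← ENNReal.ofReal_pow (by positivity), ← ENNReal.ofReal_mul (by positivity)]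
          congr 1
          have : Ψ ξ ^ s = Ψ ξ ^ (s - 1) * Ψ ξ := by
            nth_rewrite 3 [← Real.rpow_one (Ψ ξ)]
            rw [← Real.rpow_add hp]
            congr 1
            ring
          rw [this]
          ring

omit [MeasurableSpace Y] in
theorem uW_mod (U : ℂ → Y → ℂ) (Ψ : ℂ → ℝ) (hΨ : ∀ ξ, 0 < Ψ ξ) (s σ τ : ℝ) (hσ : σ = -(τ * s))
    (x : ℂ) (y : Y) :
    uW U Ψ (((s - 1 : ℝ) : ℂ) + I * ((σ : ℝ) : ℂ)) x y =
      uW (Up U Ψ (s - 1)) (fun ξ => Ψ ξ ^ s) (-(I * ((1 * τ : ℝ) : ℂ))) x y := by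
  unfold uW Up
  congr 1
  ext ξ
  rw [mul_assoc (U ξ y)]
  congr 2
  rw [Real.rpow_def_of_pos (hΨ ξ), Complex.ofReal_exp, ← Complex.exp_add, Real.log_rpow (hΨ ξ), hσ]
  congr 1
  push_cast
  ring

theorem rpn (a : ℝ≥0∞) (s : ℝ) (n m : ℕ) (h : s * n = m) : (a ^ s) ^ n = a ^ m := by
  rw [← ENNReal.rpow_natCast, ← ENNReal.rpow_mul, h, ENNReal.rpow_natCast]

theorem measurableSet_Ann (c1 c2 : ℝ) : MeasurableSet (Ann c1 c2) := by
  unfold Ann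
  exact (measurableSet_le measurable_const measurable_norm).inter
    (measurableSet_le measurable_norm measurable_const)

theorem line0 {c1 c2 : ℝ} {U : ℂ → Y → ℂ} {Ψ : ℂ → ℝ} (hU : UD ν c1 c2 U Ψ) (p : ℝ) (w : ℂ)
    (hw : w.re = p / 2 - 1) :
    ∫⁻ x : ℂ, ∫⁻ y, ‖uW U Ψ w x y‖ₑ ^ 2 ∂ν ≤
      ∫⁻ ξ in Ann c1 c2, ENNReal.ofReal ((‖ξ‖ ^ 4)⁻¹ * Ψ ξ ^ p) := by
  rw [uW_plancherel ν c1 c2 U Ψ hU w, hw, ← lintegral_indicator (measurableSet_Ann c1 c2)]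
  apply lintegral_mono
  intro ξ
  by_cases hξ : ξ ∈ Ann c1 c2
  · rw [Set.indicator_of_mem hξ]
    have hp := UD.pos hU ξ
    calc ENNReal.ofReal (Ψ ξ ^ (2 * (p / 2 - 1))) * ∫⁻ y, ‖U ξ y‖ₑ ^ 2 ∂ν
        ≤ ENNReal.ofReal (Ψ ξ ^ (2 * (p / 2 - 1))) * ENNReal.ofReal (((‖ξ‖ ^ 2)⁻¹ * Ψ ξ) ^ 2) :=
          mul_le_mul_right (hU.dom ξ) _
      _ = ENNReal.ofReal ((‖ξ‖ ^ 4)⁻¹ * Ψ ξ ^ p) := by
          rw [← ENNReal.ofReal_mul (by positivity)]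
          congr 1
          have e : Ψ ξ ^ p = Ψ ξ ^ (2 * (p / 2 - 1)) * Ψ ξ ^ 2 := by
            rw [← Real.rpow_natCast (Ψ ξ) 2, ← Real.rpow_add hp]
            congr 1
            push_cast
            ring
          rw [e, mul_pow, inv_pow, ← pow_mul]
          ring
  · rw [Set.indicator_of_notMem hξ]
    have h : ∀ y, U ξ y = 0 := by
      intro y
      apply hU.supp
      unfold Ann at hξ
      simp only [Set.mem_ofPred_eq, not_and_or, not_le] at hξ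
      exact hξ
    simp [h]

theorem core24 (θ : ℝ) (h0 : 0 < θ) (h1 : θ < 1) {c1 c2 : ℝ} {U : ℂ → Y → ℂ} {Ψ : ℂ → ℝ}
    (hU : UD ν c1 c2 U Ψ) (N : ℝ) (hN : 0 < N) :
    ∫⁻ x in {x : ℂ | ‖x‖ ≤ N ∧ ENNReal.ofReal (1 / N) ≤ uH ν U x}, (uH ν U x) ^ (4 / (2 - θ)) ≤
      ENNReal.ofReal (Real.pi ^ (4 / (2 - θ) - 2) * C24 θ ^ (4 / (2 - θ))) *
        ∫⁻ ξ in Ann c1 c2, ENNReal.ofReal ((‖ξ‖ ^ 4)⁻¹ * Ψ ξ ^ (4 / (2 - θ))) := by
  have h2θ : 0 < 2 - θ := by linarith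
  have hpi := Real.pi_pos
  have hC24 := C24_pos' θ h0 h1
  set p : ℝ := 4 / (2 - θ) with hpdef
  have hp0 : 0 < p := by positivity
  have hp : 1 / p = (1 - θ) / 2 + θ / 4 := by rw [hpdef]; field_simp; ring
  obtain ⟨hfin, F, hFd, ⟨C, hC⟩, hFθ, hF0, hF1⟩ := interp_F ν c1 c2 U Ψ hU p 2 4 θ (by norm_num)
    (by norm_num) h0 h1 hp N hN _ rfl
  set IN := ∫⁻ x in {x : ℂ | ‖x‖ ≤ N ∧ ENNReal.ofReal (1 / N) ≤ uH ν U x}, (uH ν U x) ^ p with hIN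
  set S := ∫⁻ ξ in Ann c1 c2, ENNReal.ofReal ((‖ξ‖ ^ 4)⁻¹ * Ψ ξ ^ p) with hS
  obtain ⟨hc0, hc1, hP0, hP1, -, -, -⟩ := P_facts θ h0 h1
  obtain ⟨hi0, hi1⟩ := P_int θ h0 h1 0
  simp only [pow_zero, one_mul] at hi0 hi1
  obtain ⟨hm0, hm1⟩ := P_mass θ h0 h1
  -- line 0
  have hA : ∀ τ : ℝ, ‖F (I * τ)‖ₑ ^ 4 ≤ S ^ 2 * IN ^ 2 := by
    intro τ
    have h := hF0 τ
    have hl : ∫⁻ x : ℂ, (∫⁻ y, ‖uW U Ψ (((p / 2 - 1 : ℝ) : ℂ) +
          I * ((τ * (p * (1 / 4 - 1 / 2)) : ℝ) : ℂ)) x y‖ₑ ^ 2 ∂ν) ^ ((2:ℝ) / 2) ≤ S := by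
      have e : (2:ℝ) / 2 = 1 := by norm_num
      rw [e]
      simp only [ENNReal.rpow_one]
      apply line0 hU p
      simp
    calc ‖F (I * τ)‖ₑ ^ 4 ≤ (S ^ (1 / 2 : ℝ) * IN ^ (1 - 1 / 2 : ℝ)) ^ 4 := by
          apply pow_le_pow_left₀ zero_le
          refine h.trans ?_
          exact mul_le_mul_left (ENNReal.rpow_le_rpow hl (by norm_num)) _
      _ = S ^ 2 * IN ^ 2 := by
          rw [mul_pow, rpn S (1/2) 4 2 (by norm_num), rpn IN (1 - 1/2) 4 2 (by norm_num)]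
  -- line 1
  have hU' := UD_mod hU (p / 4) (by positivity)
  set M : ℝ → ℝ≥0∞ := fun τ => ∫⁻ x : ℂ, (∫⁻ y, ‖uW (Up U Ψ (p / 4 - 1)) (fun ξ => Ψ ξ ^ (p / 4))
      (-(I * ((1 * τ : ℝ) : ℂ))) x y‖ₑ ^ 2 ∂ν) ^ 2 with hM
  have hB : ∀ τ : ℝ, ‖F (1 + I * τ)‖ₑ ^ 4 ≤ M τ * IN ^ 3 := by
    intro τ
    have h := hF1 τ
    have hl : ∫⁻ x : ℂ, (∫⁻ y, ‖uW U Ψ (((p / 4 - 1 : ℝ) : ℂ) +
          I * ((τ * (p * (1 / 4 - 1 / 2)) : ℝ) : ℂ)) x y‖ₑ ^ 2 ∂ν) ^ ((4:ℝ) / 2) = M τ := by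
      rw [hM]
      apply lintegral_congr
      intro x
      have e : (4:ℝ) / 2 = ((2 : ℕ) : ℝ) := by norm_num
      rw [e, ENNReal.rpow_natCast]
      congr 1
      apply lintegral_congr
      intro y
      rw [uW_mod U Ψ (UD.pos hU) (p / 4) _ τ (by ring)]
    rw [hl] at h
    calc ‖F (1 + I * τ)‖ₑ ^ 4 ≤ ((M τ) ^ (1 / 4 : ℝ) * IN ^ (1 - 1 / 4 : ℝ)) ^ 4 := by
          apply pow_le_pow_left₀ zero_le h
      _ = M τ * IN ^ 3 := by
          rw [mul_pow, rpn (M τ) (1/4) 4 1 (by norm_num), rpn IN (1 - 1/4) 4 3 (by norm_num), pow_one]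
  have hkey := key_lemma ν 2 le_rfl 1 one_pos (W24 θ) (adm24 θ h0 h1) c1 c2 _ _ hU'
  have hS' : ∫⁻ ξ in Ann c1 c2, ENNReal.ofReal ((‖ξ‖ ^ 4)⁻¹ * (Ψ ξ ^ (p / 4)) ^ (2 * 2)) = S := by
    rw [hS]
    apply lintegral_congr
    intro ξ
    congr 2
    rw [← Real.rpow_natCast, ← Real.rpow_mul (UD.pos hU ξ).le]
    congr 1
    push_cast
    ring
  rw [hS'] at hkey
  have hkey2 : ∫⁻ τ : ℝ, ENNReal.ofReal (W24 θ τ) * M τ ≤ ENNReal.ofReal (θ * KK24 θ) * S :=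
    hkey.trans (mul_le_mul_left (ENNReal.ofReal_le_ofReal (const_bound θ h0 h1)) _)
  -- the function H
  set H : ℂ → ℂ := fun z => F z ^ 4 * ((2 - z) / (2 + z)) ^ 2 with hH
  have hHd : ∀ z : ℂ, 0 ≤ z.re → DifferentiableAt ℂ H z := by
    intro z hz
    have h2 := two_add_ne z hz
    have hF' := hFd z
    rw [hH]
    fun_prop (disch := assumption)
  have hHb : ∀ z : ℂ, 0 ≤ z.re → z.re ≤ 1 → ‖H z‖ ≤ C ^ 4 := by
    intro z hz hz1
    rw [hH]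
    simp only [norm_mul, norm_pow]
    have h3 := hC z hz hz1
    have h4 := frac_le z hz
    calc ‖F z‖ ^ 4 * ‖(2 - z) / (2 + z)‖ ^ 2 ≤ C ^ 4 * 1 ^ 2 := by
          apply mul_le_mul
          · exact pow_le_pow_left₀ (norm_nonneg _) h3 4
          · exact pow_le_pow_left₀ (norm_nonneg _) h4 2
          · positivity
          · exact pow_nonneg ((norm_nonneg _).trans h3) 4
      _ = C ^ 4 := by ring
  have hmul := poisson_mul θ h0 h1 H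
    (fun z hz => (hHd z hz.1).continuousAt.continuousWithinAt)
    (fun z hz => (hHd z hz.1.le).differentiableWithinAt) (C ^ 4) hHb
  have hHθ : ‖H θ‖ₑ = IN ^ 4 * ENNReal.ofReal (((2 - θ) / (2 + θ)) ^ 2) := by
    rw [hH]
    simp only [enorm_mul, enorm_pow, hFθ]
    congr 1
    rw [ENNReal.ofReal_pow (by positivity)]
    congr 1
    rw [← ofReal_norm]
    congr 1
    have : (2 - (θ:ℂ)) / (2 + θ) = (((2 - θ) / (2 + θ) : ℝ) : ℂ) := by push_cast; ring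
    rw [this, Complex.norm_real, Real.norm_of_nonneg (by positivity)]
  have hH0 : (ENNReal.ofReal (1 - θ))⁻¹ * ∫⁻ τ : ℝ, ENNReal.ofReal (P0 θ τ) * ‖H (I * τ)‖ₑ ≤
      S ^ 2 * IN ^ 2 := by
    have h3 : ∀ τ : ℝ, ‖H (I * τ)‖ₑ ≤ S ^ 2 * IN ^ 2 := by
      intro τ
      rw [hH]
      simp only [enorm_mul, enorm_pow]
      refine le_trans ?_ (hA τ)
      have h4 : ‖(2 - I * (τ:ℂ)) / (2 + I * τ)‖ₑ ≤ 1 := by
        rw [← ofReal_norm]
        exact ENNReal.ofReal_le_one.2 (frac_le _ (by simp))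
      calc ‖F (I * τ)‖ₑ ^ 4 * ‖(2 - I * (τ:ℂ)) / (2 + I * τ)‖ₑ ^ 2 ≤ ‖F (I * τ)‖ₑ ^ 4 * 1 ^ 2 := by
            gcongr
        _ = _ := by simp
    calc (ENNReal.ofReal (1 - θ))⁻¹ * ∫⁻ τ : ℝ, ENNReal.ofReal (P0 θ τ) * ‖H (I * τ)‖ₑ
        ≤ (ENNReal.ofReal (1 - θ))⁻¹ * ∫⁻ τ : ℝ, ENNReal.ofReal (P0 θ τ) * (S ^ 2 * IN ^ 2) := by
          gcongr with τ
          exact h3 τ
      _ = (ENNReal.ofReal (1 - θ))⁻¹ * (ENNReal.ofReal (1 - θ) * (S ^ 2 * IN ^ 2)) := by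
          rw [lintegral_mul_const _ (hc0.measurable.ennreal_ofReal), ← hm0,
            ofReal_integral_eq_lintegral_ofReal hi0 (Eventually.of_forall fun τ => (hP0 τ).le)]
      _ = S ^ 2 * IN ^ 2 := by
          rw [← mul_assoc, ENNReal.inv_mul_cancel, one_mul]
          · simp [h1]
          · simp
  have hH1 : (ENNReal.ofReal θ)⁻¹ * ∫⁻ τ : ℝ, ENNReal.ofReal (P1 θ τ) * ‖H (1 + I * τ)‖ₑ ≤
      ENNReal.ofReal (KK24 θ) * S * IN ^ 3 := by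
    have h3 : ∀ τ : ℝ, ENNReal.ofReal (P1 θ τ) * ‖H (1 + I * τ)‖ₑ ≤
        ENNReal.ofReal (W24 θ τ) * M τ * IN ^ 3 := by
      intro τ
      rw [hH]
      simp only [enorm_mul, enorm_pow]
      have h4 : ‖(2 - (1 + I * (τ:ℂ))) / (2 + (1 + I * τ))‖ₑ ^ 2 =
          ENNReal.ofReal ((1 + τ ^ 2) / (9 + τ ^ 2)) := by
        rw [← ofReal_norm, ← ENNReal.ofReal_pow (norm_nonneg _), frac_one]
      rw [h4]
      unfold W24
      rw [ENNReal.ofReal_mul (hP1 τ).le]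
      calc ENNReal.ofReal (P1 θ τ) * (‖F (1 + I * τ)‖ₑ ^ 4 * ENNReal.ofReal ((1 + τ ^ 2) / (9 + τ ^ 2)))
          ≤ ENNReal.ofReal (P1 θ τ) * (M τ * IN ^ 3 * ENNReal.ofReal ((1 + τ ^ 2) / (9 + τ ^ 2))) := by
            gcongr
            exact hB τ
        _ = _ := by ring
    have hIN3 : IN ^ 3 ≠ ∞ := ENNReal.pow_ne_top hfin
    calc (ENNReal.ofReal θ)⁻¹ * ∫⁻ τ : ℝ, ENNReal.ofReal (P1 θ τ) * ‖H (1 + I * τ)‖ₑ
        ≤ (ENNReal.ofReal θ)⁻¹ * ∫⁻ τ : ℝ, ENNReal.ofReal (W24 θ τ) * M τ * IN ^ 3 := by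
          exact mul_le_mul_right (lintegral_mono h3) _
      _ = (ENNReal.ofReal θ)⁻¹ * ((∫⁻ τ : ℝ, ENNReal.ofReal (W24 θ τ) * M τ) * IN ^ 3) := by
          rw [lintegral_mul_const' _ _ hIN3]
      _ ≤ (ENNReal.ofReal θ)⁻¹ * ((ENNReal.ofReal (θ * KK24 θ) * S) * IN ^ 3) := by
          gcongr
      _ = ENNReal.ofReal (KK24 θ) * S * IN ^ 3 := by
          rw [ENNReal.ofReal_mul h0.le, ← mul_assoc, ← mul_assoc, ← mul_assoc,
            ENNReal.inv_mul_cancel, one_mul]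
          · simp [h0]
          · simp
  rw [hHθ] at hmul
  have hfinal : IN ^ 4 * ENNReal.ofReal (((2 - θ) / (2 + θ)) ^ 2) ≤
      (S ^ 2 * IN ^ 2) ^ (1 - θ) * (ENNReal.ofReal (KK24 θ) * S * IN ^ 3) ^ θ :=
    hmul.trans (mul_le_mul' (ENNReal.rpow_le_rpow hH0 (by linarith)) (ENNReal.rpow_le_rpow hH1 h0.le))
  -- conclusion
  have hcpos : 0 < Real.pi ^ (p - 2) * C24 θ ^ p := by positivity
  by_cases hIN0 : IN = 0
  · rw [hIN0]; exact zero_le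
  by_cases hStop : S = ∞
  · rw [hStop, ENNReal.mul_top (by simpa using hcpos)]
    exact le_top
  by_cases hS0 : S = 0
  · exfalso
    rw [hS0] at hfinal
    have : ((0:ℝ≥0∞) ^ 2 * IN ^ 2) ^ (1 - θ) = 0 := by
      simp [h1]
    rw [this, zero_mul, le_zero_iff, mul_eq_zero] at hfinal
    rcases hfinal with h | h
    · exact hIN0 (pow_eq_zero_iff (by norm_num) |>.1 h)
    · rw [ENNReal.ofReal_eq_zero] at h
      have : 0 < ((2 - θ) / (2 + θ)) ^ 2 := by positivity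
      linarith
  have hx : 0 < IN.toReal := ENNReal.toReal_pos hIN0 hfin
  have hs : 0 < S.toReal := ENNReal.toReal_pos hS0 hStop
  have hK := KK24_pos θ h0 h1
  have eIN : IN = ENNReal.ofReal IN.toReal := (ENNReal.ofReal_toReal hfin).symm
  have eS : S = ENNReal.ofReal S.toReal := (ENNReal.ofReal_toReal hStop).symm
  set x := IN.toReal
  set s := S.toReal
  have hr : 0 < (2 - θ) / (2 + θ) := by positivity
  have hfr : x ^ 4 * ((2 - θ) / (2 + θ)) ^ 2 ≤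
      (s ^ 2 * x ^ 2) ^ (1 - θ) * (KK24 θ * s * x ^ 3) ^ θ := by
    rw [eIN, eS, ← ENNReal.ofReal_pow hx.le, ← ENNReal.ofReal_mul (by positivity),
      ← ENNReal.ofReal_pow hs.le, ← ENNReal.ofReal_pow hx.le, ← ENNReal.ofReal_mul (by positivity),
      ← ENNReal.ofReal_mul (by positivity), ← ENNReal.ofReal_pow hx.le,
      ← ENNReal.ofReal_mul (by positivity), ENNReal.ofReal_rpow_of_pos (by positivity),
      ENNReal.ofReal_rpow_of_pos (by positivity), ← ENNReal.ofReal_mul (by positivity),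
      ENNReal.ofReal_le_ofReal_iff (by positivity)] at hfinal
    exact hfinal
  have hlog := i2b_real θ x s (KK24 θ) _ hx hs hK hr hfr
  have hres := i2b_const θ h0 h1 x s hx hs hlog
  rw [eIN, eS, ← ENNReal.ofReal_mul hcpos.le]
  exact ENNReal.ofReal_le_ofReal hres

end core

/-! ### the data of `HasPitt` -/

section pitt

variable {ν : Measure ℂ} [IsFiniteMeasure ν]

/-- `(∫ |U(ξ,y)|² dν(y))^{1/2}` -/
def VV (ν : Measure ℂ) (U : ℂ → ℂ → ℂ) (ξ : ℂ) : ℝ := Real.sqrt ((∫⁻ y, ‖U ξ y‖ₑ ^ 2 ∂ν).toReal)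

/-- a bound -/
def Bd (ν : Measure ℂ) (C : ℝ) : ℝ := Real.sqrt ((ENNReal.ofReal C ^ 2 * ν Set.univ).toReal)

omit [IsFiniteMeasure ν] in
theorem int_le (U : ℂ → ℂ → ℂ) (C : ℝ) (hC : ∀ ξ y, ‖U ξ y‖ ≤ C) (ξ : ℂ) :
    ∫⁻ y, ‖U ξ y‖ₑ ^ 2 ∂ν ≤ ENNReal.ofReal C ^ 2 * ν Set.univ := by
  rw [← lintegral_const]
  apply lintegral_mono
  intro y
  apply pow_le_pow_left₀ zero_le
  rw [← ofReal_norm]
  exact ENNReal.ofReal_le_ofReal (hC ξ y)

theorem int_eq (U : ℂ → ℂ → ℂ) (C : ℝ) (hC : ∀ ξ y, ‖U ξ y‖ ≤ C) (ξ : ℂ) :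
    ∫⁻ y, ‖U ξ y‖ₑ ^ 2 ∂ν = ENNReal.ofReal (VV ν U ξ ^ 2) := by
  have h := int_le (ν := ν) U C hC ξ
  have hfin : ∫⁻ y, ‖U ξ y‖ₑ ^ 2 ∂ν ≠ ∞ :=
    ne_top_of_le_ne_top (ENNReal.mul_ne_top (by simp) (measure_ne_top _ _)) h
  rw [VV, Real.sq_sqrt ENNReal.toReal_nonneg, ENNReal.ofReal_toReal hfin]

theorem VV_le (U : ℂ → ℂ → ℂ) (C : ℝ) (hC : ∀ ξ y, ‖U ξ y‖ ≤ C) (ξ : ℂ) : VV ν U ξ ≤ Bd ν C := by
  apply Real.sqrt_le_sqrt
  exact ENNReal.toReal_mono (ENNReal.mul_ne_top (by simp) (measure_ne_top _ _)) (int_le U C hC ξ)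

theorem VV_meas (U : ℂ → ℂ → ℂ) (hU : Measurable (Function.uncurry U)) : Measurable (VV ν U) := by
  have h1 : Measurable (fun q : ℂ × ℂ => ‖U q.1 q.2‖ₑ ^ 2) := by
    have h2 : Measurable (fun q : ℂ × ℂ => U q.1 q.2) := hU
    exact h2.enorm.pow_const 2
  exact (h1.lintegral_prod_right').ennreal_toReal.sqrt

theorem UD_Psi (U : ℂ → ℂ → ℂ) (hU : Measurable (Function.uncurry U)) (C : ℝ)
    (hC : ∀ ξ y, ‖U ξ y‖ ≤ C) (c1 c2 : ℝ) (hc1 : 0 < c1)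
    (hs : ∀ ξ y, (‖ξ‖ < c1 ∨ c2 < ‖ξ‖) → U ξ y = 0) (η : ℝ) (hη : 0 < η) :
    UD ν c1 c2 U (fun ξ => ‖ξ‖ ^ 2 * VV ν U ξ + η) where
  meas := hU
  c1pos := hc1
  supp := hs
  bdd := ⟨C, hC⟩
  Ψmeas := ((measurable_norm.pow_const 2).mul (VV_meas U hU)).add_const η
  Ψlow := ⟨η, hη, fun ξ => by
    have : 0 ≤ VV ν U ξ := Real.sqrt_nonneg _
    have : 0 ≤ ‖ξ‖ ^ 2 * VV ν U ξ := by positivity
    linarith⟩
  Ψup := ⟨c2 ^ 2 * Bd ν C + η, fun ξ => by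
    have hB : 0 ≤ Bd ν C := Real.sqrt_nonneg _
    simp only [add_le_add_iff_right]
    rcases lt_or_ge c2 ‖ξ‖ with h | h
    · have : VV ν U ξ = 0 := by
        unfold VV
        simp [hs ξ _ (Or.inr h)]
      rw [this]
      simp only [mul_zero]
      positivity
    · have h1 : ‖ξ‖ ^ 2 ≤ c2 ^ 2 := pow_le_pow_left₀ (norm_nonneg _) h 2
      exact mul_le_mul h1 (VV_le U C hC ξ) (Real.sqrt_nonneg _) (by positivity)⟩
  dom := by
    intro ξ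
    rw [int_eq U C hC ξ]
    apply ENNReal.ofReal_le_ofReal
    have hV : 0 ≤ VV ν U ξ := Real.sqrt_nonneg _
    by_cases hξ : ‖ξ‖ = 0
    · have : VV ν U ξ = 0 := by
        unfold VV
        simp [hs ξ _ (Or.inl (by rw [hξ]; exact hc1))]
      rw [this]
      simp only [ne_eq, OfNat.ofNat_ne_zero, not_false_eq_true, zero_pow]
      positivity
    · have hn : 0 < ‖ξ‖ := lt_of_le_of_ne (norm_nonneg _) (Ne.symm hξ)
      apply pow_le_pow_left₀ hV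
      rw [mul_add, ← mul_assoc, inv_mul_cancel₀ (by positivity), one_mul]
      have : 0 ≤ (‖ξ‖ ^ 2)⁻¹ * η := by positivity
      linarith

theorem exhaust (f : ℂ → ℝ≥0∞) (p : ℝ) (hp : 0 < p) (K : ℝ≥0∞)
    (h : ∀ N : ℝ, 0 < N → ∫⁻ x in {x : ℂ | ‖x‖ ≤ N ∧ ENNReal.ofReal (1 / N) ≤ f x}, (f x) ^ p ≤ K) :
    ∫⁻ x, (f x) ^ p ≤ K := by
  set X : ℕ → Set ℂ := fun n => {x : ℂ | ‖x‖ ≤ (n + 1 : ℝ) ∧ ENNReal.ofReal (1 / (n + 1 : ℝ)) ≤ f x}
    with hX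
  have hmono : Monotone X := by
    intro m n hmn x hx
    have hmn' : (m : ℝ) ≤ n := by exact_mod_cast hmn
    refine ⟨hx.1.trans (by linarith), le_trans (ENNReal.ofReal_le_ofReal ?_) hx.2⟩
    apply one_div_le_one_div_of_le (by positivity)
    linarith
  have hcov : ∀ x, f x ≠ 0 → x ∈ ⋃ n, X n := by
    intro x hx
    rw [Set.mem_iUnion]
    obtain ⟨a, ha⟩ := exists_nat_ge ‖x‖
    have hc : ∃ b : ℕ, ENNReal.ofReal (1 / (b + 1 : ℝ)) ≤ f x := by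
      by_cases hfx : f x = ∞
      · exact ⟨0, by rw [hfx]; exact le_top⟩
      have hpos := ENNReal.toReal_pos hx hfx
      obtain ⟨b, hb⟩ := exists_nat_one_div_lt hpos
      refine ⟨b, ?_⟩
      rw [← ENNReal.ofReal_toReal hfx]
      exact ENNReal.ofReal_le_ofReal hb.le
    obtain ⟨b, hb⟩ := hc
    refine ⟨max a b, ?_, ?_⟩
    · have : (a : ℝ) ≤ ((max a b : ℕ) : ℝ) := by exact_mod_cast le_max_left a b
      linarith
    · refine le_trans (ENNReal.ofReal_le_ofReal ?_) hb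
      apply one_div_le_one_div_of_le (by positivity)
      have : (b : ℝ) ≤ ((max a b : ℕ) : ℝ) := by exact_mod_cast le_max_right a b
      linarith
  have he : (fun x => (f x) ^ p) = (⋃ n, X n).indicator (fun x => (f x) ^ p) := by
    funext x
    by_cases hx : x ∈ ⋃ n, X n
    · rw [Set.indicator_of_mem hx]
    · rw [Set.indicator_of_notMem hx]
      have : f x = 0 := by
        by_contra h0
        exact hx (hcov x h0)
      rw [this, ENNReal.zero_rpow_of_pos hp]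
  calc ∫⁻ x, (f x) ^ p = ∫⁻ x, (⋃ n, X n).indicator (fun x => (f x) ^ p) x := by rw [← he]
    _ ≤ ∫⁻ x in ⋃ n, X n, (f x) ^ p := lintegral_indicator_le _ _
    _ = ⨆ n, ∫⁻ x in X n, (f x) ^ p := setLIntegral_iUnion_of_directed _ hmono.directed_le
    _ ≤ K := iSup_le fun n => h (n + 1) (by positivity)

theorem pitt24_aux (θ : ℝ) (h0 : 0 < θ) (h1 : θ < 1) (p K : ℝ) (hp : p = 4 / (2 - θ))
    (hK : K = Real.pi ^ (p - 2) * C24 θ ^ p) (U : ℂ → ℂ → ℂ) (hU : Measurable (Function.uncurry U)) (C : ℝ)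
    (hC : ∀ ξ y, ‖U ξ y‖ ≤ C) (c1 c2 : ℝ) (hc1 : 0 < c1)
    (hs : ∀ ξ y, (‖ξ‖ < c1 ∨ c2 < ‖ξ‖) → U ξ y = 0) (η : ℝ) (hη : 0 < η) :
    ∫⁻ x, (uH ν U x) ^ p ≤ ENNReal.ofReal K *
      ∫⁻ ξ in Ann c1 c2, ENNReal.ofReal ((‖ξ‖ ^ 4)⁻¹ * (‖ξ‖ ^ 2 * VV ν U ξ + η) ^ p) := by
  have h2θ : 0 < 2 - θ := by linarith
  apply exhaust _ _ (by rw [hp]; positivity)
  intro N hN
  have h := core24 θ h0 h1 (UD_Psi (ν := ν) U hU C hC c1 c2 hc1 hs η hη) N hN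
  rw [hK, hp]
  exact h

theorem Ann_finite (c1 c2 : ℝ) : volume (Ann c1 c2) < ∞ := by
  apply Bornology.IsBounded.measure_lt_top
  apply (Metric.isBounded_closedBall (x := (0:ℂ)) (r := c2)).subset
  intro ξ hξ
  rw [mem_closedBall_zero_iff]
  exact hξ.2

theorem S_tendsto (p : ℝ) (hp : 0 < p) (U : ℂ → ℂ → ℂ) (hU : Measurable (Function.uncurry U)) (C : ℝ)
    (hC : ∀ ξ y, ‖U ξ y‖ ≤ C) (c1 c2 : ℝ) (hc1 : 0 < c1) :
    Tendsto (fun n : ℕ => ∫⁻ ξ in Ann c1 c2,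
        ENNReal.ofReal ((‖ξ‖ ^ 4)⁻¹ * (‖ξ‖ ^ 2 * VV ν U ξ + 1 / (n + 1 : ℝ)) ^ p)) atTop
      (𝓝 (∫⁻ ξ in Ann c1 c2, ENNReal.ofReal ((‖ξ‖ ^ 4)⁻¹ * (‖ξ‖ ^ 2 * VV ν U ξ) ^ p))) := by
  have hV := VV_meas (ν := ν) U hU
  apply tendsto_lintegral_of_dominated_convergence
    (fun _ => ENNReal.ofReal ((c1 ^ 4)⁻¹ * (c2 ^ 2 * Bd ν C + 1) ^ p))
  · intro n
    fun_prop
  · intro n
    rw [Filter.EventuallyLE, ae_restrict_iff' (measurableSet_Ann c1 c2)]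
    refine Eventually.of_forall fun ξ hξ => ENNReal.ofReal_le_ofReal ?_
    have hVn : 0 ≤ VV ν U ξ := Real.sqrt_nonneg _
    have hB : 0 ≤ Bd ν C := Real.sqrt_nonneg _
    have h1 : ‖ξ‖ ^ 2 * VV ν U ξ ≤ c2 ^ 2 * Bd ν C :=
      mul_le_mul (pow_le_pow_left₀ (norm_nonneg _) hξ.2 2) (VV_le U C hC ξ) hVn (by positivity)
    have h2 : 1 / (n + 1 : ℝ) ≤ 1 := by
      rw [div_le_one (by positivity)]
      linarith [Nat.cast_nonneg (α := ℝ) n]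
    have h3 : (‖ξ‖ ^ 4)⁻¹ ≤ (c1 ^ 4)⁻¹ :=
      inv_anti₀ (by positivity) (pow_le_pow_left₀ hc1.le hξ.1 4)
    apply mul_le_mul h3 _ (by positivity) (by positivity)
    apply Real.rpow_le_rpow (by positivity) (by linarith) hp.le
  · rw [lintegral_const]
    simp only [MeasurableSet.univ, Measure.restrict_apply, Set.univ_inter]
    exact ENNReal.mul_ne_top ENNReal.ofReal_ne_top (Ann_finite c1 c2).ne
  · refine Eventually.of_forall fun ξ => ?_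
    apply ENNReal.tendsto_ofReal
    apply Tendsto.const_mul
    have h4 : Tendsto (fun n : ℕ => ‖ξ‖ ^ 2 * VV ν U ξ + 1 / (n + 1 : ℝ)) atTop
        (𝓝 (‖ξ‖ ^ 2 * VV ν U ξ + 0)) := tendsto_const_nhds.add tendsto_one_div_add_atTop_nhds_zero_nat
    rw [add_zero] at h4
    exact h4.rpow_const (Or.inr hp.le)

end pitt

theorem pitt24 (θ : ℝ) (h0 : 0 < θ) (h1 : θ < 1) : HasPitt (4 / (2 - θ)) (C24 θ) := by
  intro ν hν U hU ⟨C, hC⟩ ⟨c1, c2, hc1, hs⟩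
  have h2θ : 0 < 2 - θ := by linarith
  set p : ℝ := 4 / (2 - θ) with hp
  have hp0 : 0 < p := by positivity
  set K : ℝ := Real.pi ^ (p - 2) * C24 θ ^ p with hK
  have hlim := S_tendsto (ν := ν) p hp0 U hU C hC c1 c2 hc1
  have hle : ∫⁻ x, (uH ν U x) ^ p ≤ ENNReal.ofReal K *
      ∫⁻ ξ in Ann c1 c2, ENNReal.ofReal ((‖ξ‖ ^ 4)⁻¹ * (‖ξ‖ ^ 2 * VV ν U ξ) ^ p) :=
    ge_of_tendsto' (ENNReal.Tendsto.const_mul hlim (Or.inr ENNReal.ofReal_ne_top)) fun n =>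
      pitt24_aux θ h0 h1 p K hp hK U hU C hC c1 c2 hc1 hs (1 / (n + 1 : ℝ)) (by positivity)
  refine hle.trans (mul_le_mul_right ?_ _)
  refine le_trans (setLIntegral_mono' (measurableSet_Ann c1 c2) (fun ξ hξ => ?_))
    (setLIntegral_le_lintegral (Ann c1 c2) _)
  have hn : 0 < ‖ξ‖ := hc1.trans_le hξ.1
  have hV : 0 ≤ VV ν U ξ := Real.sqrt_nonneg _
  rw [int_eq U C hC ξ, ← ofReal_norm, ENNReal.ofReal_rpow_of_pos hn,
    ENNReal.ofReal_rpow_of_nonneg (by positivity) (by positivity), ← ENNReal.ofReal_mul (by positivity)]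
  apply ENNReal.ofReal_le_ofReal
  apply le_of_eq
  rw [Real.mul_rpow (by positivity) hV, ← Real.rpow_natCast (VV ν U ξ) 2, ← Real.rpow_mul hV,
    ← Real.rpow_natCast ‖ξ‖ 2, ← Real.rpow_mul hn.le, ← Real.rpow_natCast ‖ξ‖ 4,
    ← Real.rpow_neg hn.le, ← mul_assoc, ← Real.rpow_add hn]
  congr 2
  · push_cast
    ring
  · push_cast
    ring

end Helper85.BP.P
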