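import Mathlib

set_option autoImplicit false

open Module MeasureTheory Metric
open scoped Pointwise

namespace Pool.Agent.Helper59

section real
variable {F : Type*} [NormedAddCommGroup F] [NormedSpace ℝ F] [FiniteDimensional ℝ F]

lemma card_separated_le (b : ℕ) (S : Finset F) (h1 : ∀ s ∈ S, ‖s‖ ≤ 1)
    (h2 : ∀ s ∈ S, ∀ t ∈ S, s ≠ t → (2 : ℝ)⁻¹ ^ b ≤ dist s t) :
    S.card ≤ 2 ^ ((b + 2) * finrank ℝ F) := by
  let _ : MeasurableSpace F := borel F
  have : BorelSpace F := ⟨rfl⟩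
  let μ : Measure F := Measure.addHaar
  set η : ℝ := (2 : ℝ)⁻¹ ^ b with hη
  have hη0 : 0 < η := by positivity
  set d := finrank ℝ F
  have hdisj : (S : Set F).PairwiseDisjoint (fun s => ball s (η / 2)) := by
    intro s hs t ht hst
    apply ball_disjoint_ball
    have := h2 s hs t ht hst
    linarith
  have hsub : (⋃ s ∈ S, ball s (η / 2)) ⊆ ball (0 : F) (1 + η / 2) := by
    intro x hx
    simp only [Set.mem_iUnion] at hx
    obtain ⟨s, hs, hx⟩ := hx
    have := h1 s hs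
    rw [mem_ball_zero_iff]
    rw [mem_ball_iff_norm] at hx
    calc ‖x‖ = ‖s + (x - s)‖ := by congr 1; abel
      _ ≤ ‖s‖ + ‖x - s‖ := norm_add_le _ _
      _ < 1 + η / 2 := by linarith
  have h3 : μ (⋃ s ∈ S, ball s (η / 2)) = ∑ s ∈ S, μ (ball s (η / 2)) :=
    measure_biUnion_finset hdisj (fun s _ => measurableSet_ball)
  have h4 : ∑ s ∈ S, μ (ball s (η / 2)) = S.card * (ENNReal.ofReal ((η / 2) ^ d) * μ (ball 0 1)) := by
    rw [Finset.sum_congr rfl (fun s _ => Measure.addHaar_ball_of_pos μ s (half_pos hη0))]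
    simp [d]
  have h5 : μ (ball (0 : F) (1 + η / 2)) = ENNReal.ofReal ((1 + η / 2) ^ d) * μ (ball 0 1) :=
    Measure.addHaar_ball_of_pos μ _ (by positivity)
  have h6 : (S.card : ENNReal) * (ENNReal.ofReal ((η / 2) ^ d) * μ (ball 0 1))
      ≤ ENNReal.ofReal ((1 + η / 2) ^ d) * μ (ball 0 1) := by
    rw [← h4, ← h3, ← h5]
    exact measure_mono hsub
  have hpos : μ (ball (0 : F) 1) ≠ 0 := (measure_ball_pos μ _ one_pos).ne'
  have hfin : μ (ball (0 : F) 1) ≠ ⊤ := measure_ball_lt_top.ne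
  rw [← mul_assoc] at h6
  have h7 := (ENNReal.mul_le_mul_iff_left hpos hfin).1 h6
  have h8 : ((S.card : ℝ)) * (η / 2) ^ d ≤ (1 + η / 2) ^ d := by
    rw [← ENNReal.ofReal_natCast, ← ENNReal.ofReal_mul (by positivity)] at h7
    exact (ENNReal.ofReal_le_ofReal_iff (by positivity)).1 h7
  have h9 : (S.card : ℝ) ≤ ((1 + η / 2) / (η / 2)) ^ d := by
    rw [div_pow, le_div_iff₀ (by positivity)]
    exact h8
  have h10 : (1 + η / 2) / (η / 2) ≤ 2 ^ (b + 2) := by
    rw [div_le_iff₀ (by positivity)]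
    have : (2 : ℝ) ^ (b + 2) * (η / 2) = 2 := by
      rw [hη, pow_add]
      have : (2 : ℝ) ^ b * (2 : ℝ)⁻¹ ^ b = 1 := by rw [← mul_pow]; norm_num
      linear_combination 2 * this
    rw [this]
    have : η ≤ 1 := pow_le_one₀ (by norm_num) (by norm_num)
    linarith
  have h11 : (S.card : ℝ) ≤ (2 : ℝ) ^ ((b + 2) * d) := by
    refine h9.trans ?_
    rw [pow_mul]
    gcongr
  exact_mod_cast h11

lemma exists_net_real (b : ℕ) : ∃ S : Finset F, (∀ s ∈ S, ‖s‖ ≤ 1) ∧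
    S.card ≤ 2 ^ ((b + 2) * finrank ℝ F) ∧
    ∀ x : F, ‖x‖ ≤ 1 → ∃ s ∈ S, ‖x - s‖ ≤ (2 : ℝ)⁻¹ ^ b := by
  classical
  by_contra hcon
  push Not at hcon
  have key : ∀ k : ℕ, ∃ S : Finset F, (∀ s ∈ S, ‖s‖ ≤ 1) ∧
      (∀ s ∈ S, ∀ t ∈ S, s ≠ t → (2 : ℝ)⁻¹ ^ b ≤ dist s t) ∧ S.card = k := by
    intro k
    induction k with
    | zero => exact ⟨∅, by simp, by simp, rfl⟩
    | succ k ih =>
      obtain ⟨S, h1, h2, h3⟩ := ih
      obtain ⟨x, hx1, hx2⟩ := hcon S h1 (card_separated_le b S h1 h2)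
      have hxS : x ∉ S := by
        intro h
        have := hx2 x h
        rw [sub_self, norm_zero] at this
        have h0 : (0 : ℝ) < (2 : ℝ)⁻¹ ^ b := by positivity
        linarith
      refine ⟨insert x S, ?_, ?_, by rw [Finset.card_insert_of_notMem hxS, h3]⟩
      · intro s hs
        rcases Finset.mem_insert.1 hs with rfl | hs
        · exact hx1
        · exact h1 s hs
      · intro s hs t ht hst
        rcases Finset.mem_insert.1 hs with rfl | hs' <;> rcases Finset.mem_insert.1 ht with rfl | ht'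
        · exact absurd rfl hst
        · rw [dist_eq_norm]; exact (hx2 t ht').le
        · rw [dist_comm, dist_eq_norm]; exact (hx2 s hs').le
        · exact h2 s hs' t ht' hst
  obtain ⟨S, h1, h2, h3⟩ := key (2 ^ ((b + 2) * finrank ℝ F) + 1)
  have := card_separated_le b S h1 h2
  omega

end real

section rclike
variable {𝕜 : Type*} [RCLike 𝕜] {F : Type*} [NormedAddCommGroup F] [NormedSpace 𝕜 F]
  [FiniteDimensional 𝕜 F]

lemma exists_net (b : ℕ) : ∃ S : Finset F, (∀ s ∈ S, ‖s‖ ≤ 1) ∧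
    S.card ≤ 2 ^ ((b + 2) * (finrank ℝ 𝕜 * finrank 𝕜 F)) ∧
    ∀ x : F, ‖x‖ ≤ 1 → ∃ s ∈ S, ‖x - s‖ ≤ (2 : ℝ)⁻¹ ^ b := by
  let _ : NormedSpace ℝ F := NormedSpace.restrictScalars ℝ 𝕜 F
  have : IsScalarTower ℝ 𝕜 F := RestrictScalars.isScalarTower ℝ 𝕜 F
  have : FiniteDimensional ℝ F := FiniteDimensional.trans ℝ 𝕜 F
  have h := exists_net_real (F := F) b
  rwa [← finrank_mul_finrank ℝ 𝕜 F] at h

/-- volume comparison in the quotient -/
lemma volume_quotient (L : Submodule 𝕜 F) (B : Set F) (hB1 : Bornology.IsBounded B)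
    (hB2 : B ∈ nhds (0 : F)) (M : Finset F) (t : ℝ) (ht : 0 < t)
    (h : ∀ x ∈ B, ∃ m ∈ M, ∃ y ∈ L, ∃ z ∈ B, x = m + y + (t : 𝕜) • z) :
    1 ≤ M.card * t ^ (finrank ℝ 𝕜 * (finrank 𝕜 F - finrank 𝕜 L)) := by
  let _ : NormedSpace ℝ F := NormedSpace.restrictScalars ℝ 𝕜 F
  have : IsScalarTower ℝ 𝕜 F := RestrictScalars.isScalarTower ℝ 𝕜 F
  have : FiniteDimensional ℝ F := FiniteDimensional.trans ℝ 𝕜 F
  set D := finrank ℝ (F ⧸ L) with hD
  have hD' : D = finrank ℝ 𝕜 * (finrank 𝕜 F - finrank 𝕜 L) := by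
    rw [hD, ← finrank_mul_finrank ℝ 𝕜 (F ⧸ L)]
    congr 1
    have := Submodule.finrank_quotient_add_finrank L
    omega
  have : FiniteDimensional ℝ (F ⧸ L) := FiniteDimensional.trans ℝ 𝕜 (F ⧸ L)
  let e : (F ⧸ L) ≃ₗ[ℝ] (Fin D → ℝ) := (finBasis ℝ (F ⧸ L)).equivFun
  let π : F →ₗ[ℝ] (Fin D → ℝ) := e.toLinearMap ∘ₗ (L.mkQ.restrictScalars ℝ)
  have hπs : Function.Surjective π := e.surjective.comp (Submodule.mkQ_surjective L)
  have hπL : ∀ y ∈ L, π y = 0 := by
    intro y hy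
    have : L.mkQ y = 0 := by simpa using hy
    simp [π, this]
  have hπc : Continuous π := π.continuous_of_finiteDimensional
  have hπo : IsOpenMap π := π.isOpenMap_of_finiteDimensional hπs
  have hcov : π '' B ⊆ ⋃ m ∈ M, (fun v => π m + v) '' (t • (π '' B)) := by
    rintro _ ⟨x, hx, rfl⟩
    obtain ⟨m, hm, y, hy, z, hz, rfl⟩ := h x hx
    simp only [Set.mem_iUnion]
    refine ⟨m, hm, t • π z, ⟨π z, ⟨z, hz, rfl⟩, rfl⟩, ?_⟩
    have : ((t : 𝕜) • z : F) = t • z := by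
      rw [← algebraMap_smul 𝕜 t z]
    simp [map_add, hπL y hy, this]
  let μ : Measure (Fin D → ℝ) := volume
  have h1 : μ (π '' B) ≤ ∑ m ∈ M, ENNReal.ofReal (t ^ D) * μ (π '' B) := by
    refine (measure_mono hcov).trans ((measure_biUnion_finset_le _ _).trans ?_)
    refine Finset.sum_le_sum fun m _ => ?_
    rw [show (fun v => π m + v) '' (t • (π '' B)) = π m +ᵥ (t • (π '' B)) from rfl]
    rw [measure_vadd, Measure.addHaar_smul_of_nonneg μ ht.le]
    simp
  have hpos : μ (π '' B) ≠ 0 := by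
    have hn : π '' B ∈ nhds (π 0) := hπo.image_mem_nhds hB2
    exact (Measure.measure_pos_of_mem_nhds μ hn).ne'
  have hfin : μ (π '' B) ≠ ⊤ := by
    have : Bornology.IsBounded (π '' B) := by
      have hL := (LinearMap.toContinuousLinearMap π).lipschitz
      exact hL.isBounded_image hB1
    exact this.measure_lt_top.ne
  rw [Finset.sum_const, nsmul_eq_mul] at h1
  have h2 : 1 * μ (π '' B) ≤ ((M.card : ENNReal) * ENNReal.ofReal (t ^ D)) * μ (π '' B) := by
    rw [one_mul, mul_assoc]; exact h1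
  have h3 := (ENNReal.mul_le_mul_iff_left hpos hfin).1 h2
  rw [← ENNReal.ofReal_natCast, ← ENNReal.ofReal_mul (by positivity), ENNReal.one_le_ofReal] at h3
  rw [← hD']
  exact h3

end rclike

end Pool.Agent.Helper59
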