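import Mathlib

set_option autoImplicit false

open Module InnerProductSpace

namespace Pool.Agent.Helper59

variable {𝕜 : Type*} [RCLike 𝕜]
  {E : Type*} [NormedAddCommGroup E] [InnerProductSpace 𝕜 E] [FiniteDimensional 𝕜 E]

/-- singular values of a bounded endomorphism -/
noncomputable def sv (T : E →L[𝕜] E) (i : ℕ) : ℝ := (T : E →ₗ[𝕜] E).singularValues i

/-- right singular basis -/
noncomputable def bas (T : E →L[𝕜] E) : OrthonormalBasis (Fin (finrank 𝕜 E)) 𝕜 E :=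
    (T : E →ₗ[𝕜] E).isSymmetric_adjoint_comp_self.eigenvectorBasis rfl

lemma sv_nonneg (T : E →L[𝕜] E) (i : ℕ) : 0 ≤ sv T i := LinearMap.singularValues_nonneg _ _

lemma sv_anti (T : E →L[𝕜] E) : Antitone (sv T) := LinearMap.singularValues_antitone _

lemma sv_eq_zero (T : E →L[𝕜] E) {i : ℕ} (h : finrank 𝕜 E ≤ i) : sv T i = 0 :=
  LinearMap.singularValues_of_finrank_le _ h

lemma norm_sq_apply (T : E →L[𝕜] E) (x : E) :
    ‖T x‖ ^ 2 = ∑ i : Fin (finrank 𝕜 E), sv T i ^ 2 * ‖⟪bas T i, x⟫_𝕜‖ ^ 2 := by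
  set S := (T : E →ₗ[𝕜] E).isSymmetric_adjoint_comp_self with hS
  have h1 : (‖T x‖ ^ 2 : ℝ) = RCLike.re ⟪x, ((T : E →ₗ[𝕜] E).adjoint ∘ₗ (T : E →ₗ[𝕜] E)) x⟫_𝕜 := by
    rw [LinearMap.comp_apply, LinearMap.adjoint_inner_right]
    simp
  have h2 := (bas T).sum_inner_mul_inner x (((T : E →ₗ[𝕜] E).adjoint ∘ₗ (T : E →ₗ[𝕜] E)) x)
  rw [h1, ← h2, map_sum]
  refine Finset.sum_congr rfl fun i _ => ?_
  have h3 : ⟪bas T i, ((T : E →ₗ[𝕜] E).adjoint ∘ₗ (T : E →ₗ[𝕜] E)) x⟫_𝕜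
      = ((sv T i ^ 2 : ℝ) : 𝕜) * ⟪bas T i, x⟫_𝕜 := by
    rw [← S (bas T i) x]
    have : ((T : E →ₗ[𝕜] E).adjoint ∘ₗ (T : E →ₗ[𝕜] E)) (bas T i)
        = (((S.eigenvalues rfl i : ℝ)) : 𝕜) • bas T i := S.apply_eigenvectorBasis rfl i
    rw [this, inner_smul_left]
    have h4 : sv T i ^ 2 = S.eigenvalues rfl i := LinearMap.sq_singularValues_fin _ rfl i
    rw [h4]
    simp
  rw [h3]
  have h5 : ⟪x, bas T i⟫_𝕜 = (starRingEnd 𝕜) ⟪bas T i, x⟫_𝕜 := (inner_conj_symm _ _).symm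
  rw [h5, mul_left_comm, RCLike.re_ofReal_mul, RCLike.conj_mul]
  norm_cast

lemma norm_sq_eq (T : E →L[𝕜] E) (x : E) :
    ‖x‖ ^ 2 = ∑ i : Fin (finrank 𝕜 E), ‖⟪bas T i, x⟫_𝕜‖ ^ 2 :=
  ((bas T).sum_sq_norm_inner_right x).symm

/-- Mirsky/Eckart-Young lower bound -/
lemma sv_le_norm_sub (T Y : E →L[𝕜] E) (r : ℕ)
    (hY : finrank 𝕜 (LinearMap.range (Y : E →ₗ[𝕜] E)) ≤ r) : sv T r ≤ ‖T - Y‖ := by
  by_cases hr : finrank 𝕜 E ≤ r
  · rw [sv_eq_zero T hr]; exact norm_nonneg _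
  push Not at hr
  -- span of first r+1 vectors
  let f : Fin (r + 1) → E := fun i => bas T ⟨i, lt_of_lt_of_le i.2 hr⟩
  have hf : Orthonormal 𝕜 f := (bas T).orthonormal.comp _ (by
    intro a b h; ext; simpa using congrArg Fin.val h)
  let W := Submodule.span 𝕜 (Set.range f)
  have hW : finrank 𝕜 W = r + 1 := by
    rw [finrank_span_eq_card hf.linearIndependent]; simp
  have hK := LinearMap.finrank_range_add_finrank_ker (Y : E →ₗ[𝕜] E)
  have hne : ∃ x ∈ W ⊓ LinearMap.ker (Y : E →ₗ[𝕜] E), x ≠ 0 := by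
    have h1 := Submodule.finrank_sup_add_finrank_inf_eq W (LinearMap.ker (Y : E →ₗ[𝕜] E))
    have h2 : finrank 𝕜 (W ⊔ LinearMap.ker (Y : E →ₗ[𝕜] E) : Submodule 𝕜 E) ≤ finrank 𝕜 E :=
      Submodule.finrank_le _
    have h3 : 0 < finrank 𝕜 (W ⊓ LinearMap.ker (Y : E →ₗ[𝕜] E) : Submodule 𝕜 E) := by omega
    have h4 : W ⊓ LinearMap.ker (Y : E →ₗ[𝕜] E) ≠ ⊥ := by
      intro h; rw [h] at h3; simp at h3
    obtain ⟨x, hx, hx0⟩ := (Submodule.ne_bot_iff _).1 h4
    exact ⟨x, hx, hx0⟩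
  obtain ⟨x, ⟨hxW, hxK⟩, hx0⟩ := hne
  have hxpos : 0 < ‖x‖ := norm_pos_iff.2 hx0
  have hYx : Y x = 0 := by simpa using hxK
  have hTx : ‖T x‖ ≤ ‖T - Y‖ * ‖x‖ := by
    have := (T - Y).le_opNorm x
    simpa [hYx] using this
  have hlow : sv T r * ‖x‖ ≤ ‖T x‖ := by
    have h0 : ∀ i : Fin (finrank 𝕜 E), r < i → ⟪bas T i, x⟫_𝕜 = 0 := by
      intro i hi
      have : ∀ y ∈ W, ⟪bas T i, y⟫_𝕜 = 0 := by
        intro y hy
        induction hy using Submodule.span_induction with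
        | mem y hy =>
          obtain ⟨j, rfl⟩ := hy
          refine (bas T).orthonormal.2 ?_
          intro h
          have := congrArg Fin.val h
          simp only at this
          have := j.2
          omega
        | zero => simp
        | add a b _ _ ha hb => rw [inner_add_right, ha, hb, add_zero]
        | smul c a _ ha => rw [inner_smul_right, ha, mul_zero]
      exact this x hxW
    have h1 : (sv T r * ‖x‖) ^ 2 ≤ ‖T x‖ ^ 2 := by
      rw [norm_sq_apply, mul_pow, norm_sq_eq T x, Finset.mul_sum]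
      refine Finset.sum_le_sum fun i _ => ?_
      by_cases hi : r < i
      · simp [h0 i hi]
      · push Not at hi
        have := sv_anti T hi
        have h2 := sv_nonneg T r
        gcongr
    exact le_of_sq_le_sq h1 (norm_nonneg _)
  have : sv T r * ‖x‖ ≤ ‖T - Y‖ * ‖x‖ := hlow.trans hTx
  exact le_of_mul_le_mul_right this hxpos

/-- right singular vectors, extended by zero -/
noncomputable def vec (T : E →L[𝕜] E) (i : ℕ) : E :=
  if h : i < finrank 𝕜 E then bas T ⟨i, h⟩ else 0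

lemma vec_of_lt (T : E →L[𝕜] E) (i : Fin (finrank 𝕜 E)) : vec T i = bas T i := by
  simp [vec]

lemma vec_of_ge (T : E →L[𝕜] E) {i : ℕ} (h : finrank 𝕜 E ≤ i) : vec T i = 0 := by
  simp [vec, not_lt.2 h]

lemma sum_vec_sq (T : E →L[𝕜] E) (x : E) :
    ∑ i ∈ Finset.range (finrank 𝕜 E), ‖⟪vec T i, x⟫_𝕜‖ ^ 2 = ‖x‖ ^ 2 := by
  rw [norm_sq_eq T x, Finset.sum_range]
  simp [vec_of_lt]

lemma inner_vec_vec (T : E →L[𝕜] E) (i j : ℕ) (h : i ≠ j) : ⟪vec T i, vec T j⟫_𝕜 = 0 := by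
  unfold vec
  split_ifs with h1 h2
  · exact (bas T).orthonormal.2 (by simpa using h)
  all_goals simp

/-- projection onto the first `r` right singular vectors -/
noncomputable def proj (T : E →L[𝕜] E) (r : ℕ) : E →L[𝕜] E :=
  LinearMap.toContinuousLinearMap
    (∑ i ∈ Finset.range r, (LinearMap.toSpanSingleton 𝕜 E (vec T i)) ∘ₗ
      ((innerSL 𝕜 (vec T i) : E →L[𝕜] 𝕜) : E →ₗ[𝕜] 𝕜))

lemma proj_apply (T : E →L[𝕜] E) (r : ℕ) (x : E) :
    proj T r x = ∑ i ∈ Finset.range r, ⟪vec T i, x⟫_𝕜 • vec T i := by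
  simp [proj]

lemma inner_sub_proj (T : E →L[𝕜] E) (r : ℕ) (x : E) (j : Fin (finrank 𝕜 E)) :
    ⟪bas T j, x - proj T r x⟫_𝕜 = if (j : ℕ) < r then 0 else ⟪bas T j, x⟫_𝕜 := by
  have key : ⟪bas T j, proj T r x⟫_𝕜 = if (j : ℕ) < r then ⟪bas T j, x⟫_𝕜 else 0 := by
    rw [proj_apply, inner_sum]
    rw [← vec_of_lt]
    split_ifs with h
    · rw [Finset.sum_eq_single (j : ℕ)]
      · rw [inner_smul_right, vec_of_lt]
        simp
      · intro b _ hb
        rw [inner_smul_right, inner_vec_vec T _ _ hb.symm, mul_zero]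
      · intro h'; exact absurd (Finset.mem_range.2 h) h'
    · refine Finset.sum_eq_zero fun i hi => ?_
      rw [inner_smul_right, inner_vec_vec T _ _ (by
        have := Finset.mem_range.1 hi; omega), mul_zero]
  rw [inner_sub_right, key]
  split_ifs <;> simp

lemma norm_apply_sub_proj_le (T : E →L[𝕜] E) (r : ℕ) : ‖T - T ∘L proj T r‖ ≤ sv T r := by
  refine ContinuousLinearMap.opNorm_le_bound _ (sv_nonneg _ _) fun x => ?_
  have h1 : (T - T ∘L proj T r) x = T (x - proj T r x) := by simp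
  rw [h1]
  refine le_of_sq_le_sq ?_ (by have := sv_nonneg T r; positivity)
  rw [norm_sq_apply, mul_pow, norm_sq_eq T x, Finset.mul_sum]
  refine Finset.sum_le_sum fun i _ => ?_
  rw [inner_sub_proj]
  split_ifs with h
  · simp; positivity
  · push Not at h
    have := sv_anti T h
    have h2 := sv_nonneg T i
    gcongr

omit [FiniteDimensional 𝕜 E] in
lemma finrank_range_le_of_mem_span {F : Type*} [AddCommGroup F] [Module 𝕜 F]
    (Y : F →ₗ[𝕜] E) (s : Finset E)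
    (h : ∀ x, Y x ∈ Submodule.span 𝕜 (s : Set E)) : finrank 𝕜 (LinearMap.range Y) ≤ s.card := by
  have h1 : LinearMap.range Y ≤ Submodule.span 𝕜 (s : Set E) := by
    rintro _ ⟨x, rfl⟩; exact h x
  exact (Submodule.finrank_mono h1).trans (finrank_span_finset_le_card s)

/-- the difference of two projections composed with `T` has small rank -/
lemma rank_proj_diff (T : E →L[𝕜] E) (r i : ℕ) :
    finrank 𝕜 (LinearMap.range ((T ∘L proj T (r + i) - T ∘L proj T r : E →L[𝕜] E) : E →ₗ[𝕜] E))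
      ≤ i := by
  classical
  have h := finrank_range_le_of_mem_span
    ((T ∘L proj T (r + i) - T ∘L proj T r : E →L[𝕜] E) : E →ₗ[𝕜] E)
    ((Finset.range i).image fun l => T (vec T (r + l))) (by
      intro x
      have : ((T ∘L proj T (r + i) - T ∘L proj T r : E →L[𝕜] E) : E →ₗ[𝕜] E) x
          = ∑ l ∈ Finset.range i, ⟪vec T (r + l), x⟫_𝕜 • T (vec T (r + l)) := by
        simp only [ContinuousLinearMap.coe_coe, sub_apply,
          ContinuousLinearMap.comp_apply, proj_apply, Finset.sum_range_add, map_add, map_sum,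
          map_smul]
        abel
      rw [this]
      refine Submodule.sum_mem _ fun l hl => Submodule.smul_mem _ _ (Submodule.subset_span ?_)
      simp only [Finset.coe_image, Set.mem_image]
      exact ⟨l, hl, rfl⟩)
  refine h.trans (Finset.card_image_le.trans (by simp))

lemma finrank_range_add_le (A B : E →L[𝕜] E) (a b : ℕ)
    (hA : finrank 𝕜 (LinearMap.range (A : E →ₗ[𝕜] E)) ≤ a)
    (hB : finrank 𝕜 (LinearMap.range (B : E →ₗ[𝕜] E)) ≤ b) :
    finrank 𝕜 (LinearMap.range ((A + B : E →L[𝕜] E) : E →ₗ[𝕜] E)) ≤ a + b := by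
  have h1 : LinearMap.range ((A + B : E →L[𝕜] E) : E →ₗ[𝕜] E) ≤
      LinearMap.range (A : E →ₗ[𝕜] E) ⊔ LinearMap.range (B : E →ₗ[𝕜] E) := by
    rintro _ ⟨x, rfl⟩
    exact Submodule.add_mem_sup ⟨x, rfl⟩ ⟨x, rfl⟩
  have h2 := Submodule.finrank_mono h1
  have h3 := Submodule.finrank_add_le_finrank_add_finrank
    (LinearMap.range (A : E →ₗ[𝕜] E)) (LinearMap.range (B : E →ₗ[𝕜] E))
  omega

/-- singular values of `small rank, small norm` plus tail of `T` -/
lemma sv_perturb (T E₁ : E →L[𝕜] E) (r r' i : ℕ)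
    (hE : finrank 𝕜 (LinearMap.range (E₁ : E →ₗ[𝕜] E)) ≤ r') :
    sv (E₁ + (T - T ∘L proj T r)) (r' + i) ≤ sv T (r + i) := by
  have h := sv_le_norm_sub (E₁ + (T - T ∘L proj T r))
    (E₁ + (T ∘L proj T (r + i) - T ∘L proj T r)) (r' + i)
    (finrank_range_add_le _ _ _ _ hE (rank_proj_diff T r i))
  refine h.trans ?_
  have : E₁ + (T - T ∘L proj T r) - (E₁ + (T ∘L proj T (r + i) - T ∘L proj T r))
      = T - T ∘L proj T (r + i) := by abel
  rw [this]
  exact norm_apply_sub_proj_le T (r + i)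

lemma sv_le_norm (Z : E →L[𝕜] E) (i : ℕ) : sv Z i ≤ ‖Z‖ := by
  have := sv_le_norm_sub Z 0 i (by
    rw [show ((0 : E →L[𝕜] E) : E →ₗ[𝕜] E) = 0 from rfl, LinearMap.range_zero]; simp)
  simpa using this

lemma norm_le_sv_zero (Z : E →L[𝕜] E) : ‖Z‖ ≤ sv Z 0 := by
  have := norm_apply_sub_proj_le Z 0
  have h : proj Z 0 = 0 := by ext x; simp [proj_apply]
  simpa [h] using this

lemma sv_smul_le (c : ℝ) (hc : 0 ≤ c) (Z : E →L[𝕜] E) (i : ℕ) :
    sv ((c : 𝕜) • Z) i ≤ c * sv Z i := by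
  have h := sv_le_norm_sub ((c : 𝕜) • Z) ((c : 𝕜) • (Z ∘L proj Z i)) i (by
    have h0 := rank_proj_diff Z 0 i
    have h1 : (Z ∘L proj Z (0 + i) - Z ∘L proj Z 0 : E →L[𝕜] E) = Z ∘L proj Z i := by
      have : proj Z 0 = 0 := by ext x; simp [proj_apply]
      simp [this]
    rw [h1] at h0
    refine le_trans (Submodule.finrank_mono ?_) h0
    rintro _ ⟨x, rfl⟩
    exact ⟨(c : 𝕜) • x, by simp⟩)
  rw [← smul_sub, norm_smul] at h
  have h2 := norm_apply_sub_proj_le Z i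
  simp only [RCLike.norm_ofReal, abs_of_nonneg hc] at h
  exact h.trans (by gcongr)


/-- block coordinate map `x ↦ (⟨v_{a+l}, x⟩)_{l < R}` -/
noncomputable def Yb (T : E →L[𝕜] E) (a R : ℕ) : E →L[𝕜] EuclideanSpace 𝕜 (Fin R) :=
  LinearMap.toContinuousLinearMap
    { toFun := fun x => WithLp.toLp 2 (fun l : Fin R => ⟪vec T (a + l), x⟫_𝕜)
      map_add' := fun x y => by ext l; simp [inner_add_right]
      map_smul' := fun c x => by ext l; simp [inner_smul_right] }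

lemma Yb_apply (T : E →L[𝕜] E) (a R : ℕ) (x : E) (l : Fin R) :
    Yb T a R x l = ⟪vec T (a + l), x⟫_𝕜 := by
  simp [Yb]

lemma Yb_norm_le (T : E →L[𝕜] E) (a R : ℕ) : ‖Yb T a R‖ ≤ 1 := by
  refine ContinuousLinearMap.opNorm_le_bound _ zero_le_one fun x => ?_
  rw [one_mul]
  refine le_of_sq_le_sq ?_ (norm_nonneg _)
  rw [EuclideanSpace.norm_sq_eq, ← sum_vec_sq T x]
  simp only [Yb_apply]
  rw [← Finset.sum_range (fun l => ‖⟪vec T (a + l), x⟫_𝕜‖ ^ 2)]
  rw [Finset.range_eq_Ico, Finset.sum_Ico_add (fun i => ‖⟪vec T i, x⟫_𝕜‖ ^ 2) 0 R a]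
  rw [← Finset.sum_filter_of_ne (p := fun i => i < finrank 𝕜 E) (s := Finset.Ico _ _)]
  · refine Finset.sum_le_sum_of_subset_of_nonneg ?_ fun i _ _ => by positivity
    intro i hi
    simpa using (Finset.mem_filter.1 hi).2
  · intro i _ hi
    by_contra hcon
    simp only [not_lt] at hcon
    exact hi (by rw [vec_of_ge T hcon]; simp)

variable [CompleteSpace E]

/-- adjoint block map -/
noncomputable def Xb (T : E →L[𝕜] E) (a R : ℕ) : EuclideanSpace 𝕜 (Fin R) →L[𝕜] E :=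
  T ∘L (ContinuousLinearMap.adjoint (Yb T a R))

lemma Yb_adj_apply (T : E →L[𝕜] E) (a R : ℕ) (c : EuclideanSpace 𝕜 (Fin R)) :
    ContinuousLinearMap.adjoint (Yb T a R) c = ∑ l : Fin R, c l • vec T (a + l) := by
  refine ext_inner_right 𝕜 fun x => ?_
  rw [ContinuousLinearMap.adjoint_inner_left, sum_inner]
  simp only [PiLp.inner_apply, Yb_apply, inner_smul_left]
  refine Finset.sum_congr rfl fun l _ => ?_
  simp [mul_comm]

lemma Xb_norm_le (T : E →L[𝕜] E) (a R : ℕ) : ‖Xb T a R‖ ≤ sv T a := by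
  refine ContinuousLinearMap.opNorm_le_bound _ (sv_nonneg _ _) fun c => ?_
  set u := ContinuousLinearMap.adjoint (Yb T a R) c with hu
  have h1 : ‖u‖ ≤ ‖c‖ := by
    have h := (ContinuousLinearMap.adjoint (Yb T a R)).le_opNorm c
    rw [LinearIsometryEquiv.norm_map] at h
    calc ‖u‖ ≤ ‖Yb T a R‖ * ‖c‖ := h
      _ ≤ 1 * ‖c‖ := by gcongr; exact Yb_norm_le T a R
      _ = ‖c‖ := one_mul _
  have h2 : Xb T a R c = T u := rfl
  rw [h2]
  have h3 : ‖T u‖ ≤ sv T a * ‖u‖ := by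
    refine le_of_sq_le_sq ?_ (by have := sv_nonneg T a; positivity)
    rw [norm_sq_apply, mul_pow, norm_sq_eq T u, Finset.mul_sum]
    refine Finset.sum_le_sum fun i _ => ?_
    by_cases hi : (i : ℕ) < a
    · have : ⟪bas T i, u⟫_𝕜 = 0 := by
        rw [hu, Yb_adj_apply, inner_sum]
        refine Finset.sum_eq_zero fun l _ => ?_
        rw [inner_smul_right, ← vec_of_lt, inner_vec_vec T _ _ (by omega), mul_zero]
      simp [this]
    · push Not at hi
      have := sv_anti T hi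
      have h2 := sv_nonneg T i
      gcongr
  exact h3.trans (by have := sv_nonneg T a; gcongr)

lemma Xb_comp_Yb (T : E →L[𝕜] E) (a R : ℕ) :
    Xb T a R ∘L Yb T a R = T ∘L proj T (a + R) - T ∘L proj T a := by
  ext x
  simp only [Xb, ContinuousLinearMap.comp_apply, sub_apply, Yb_adj_apply, proj_apply,
    Finset.sum_range_add, map_add, Yb_apply, add_sub_cancel_left]
  rw [Finset.sum_range (fun l => ⟪vec T (a + l), x⟫_𝕜 • vec T (a + l))]

omit [FiniteDimensional 𝕜 E] [CompleteSpace E] in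
lemma finrank_range_comp_le {R : ℕ} (X : EuclideanSpace 𝕜 (Fin R) →L[𝕜] E)
    (Y : E →L[𝕜] EuclideanSpace 𝕜 (Fin R)) :
    finrank 𝕜 (LinearMap.range ((X ∘L Y : E →L[𝕜] E) : E →ₗ[𝕜] E)) ≤ R := by
  have h1 : LinearMap.range ((X ∘L Y : E →L[𝕜] E) : E →ₗ[𝕜] E) ≤
      LinearMap.range (X : EuclideanSpace 𝕜 (Fin R) →ₗ[𝕜] E) := by
    rintro _ ⟨x, rfl⟩
    exact ⟨Y x, rfl⟩
  refine (Submodule.finrank_mono h1).trans ?_
  refine (LinearMap.finrank_range_le _).trans ?_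
  simp

end Pool.Agent.Helper59
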