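import Mathlib
import Pool.Agent.Helper59.SV
import Pool.Agent.Helper59.Net

set_option autoImplicit false

open Module

namespace Pool.Agent.Helper59

variable {𝕜 : Type*} [RCLike 𝕜]
  {E : Type*} [NormedAddCommGroup E] [InnerProductSpace 𝕜 E] [FiniteDimensional 𝕜 E]
  [CompleteSpace E]

instance finDimCLM {F G : Type*} [NormedAddCommGroup F] [NormedSpace 𝕜 F] [FiniteDimensional 𝕜 F]
    [NormedAddCommGroup G] [NormedSpace 𝕜 G] [FiniteDimensional 𝕜 G] :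
    FiniteDimensional 𝕜 (F →L[𝕜] G) :=
  (LinearMap.toContinuousLinearMap : (F →ₗ[𝕜] G) ≃ₗ[𝕜] (F →L[𝕜] G)).finiteDimensional

lemma finrank_clm {F G : Type*} [NormedAddCommGroup F] [NormedSpace 𝕜 F] [FiniteDimensional 𝕜 F]
    [NormedAddCommGroup G] [NormedSpace 𝕜 G] [FiniteDimensional 𝕜 G] :
    finrank 𝕜 (F →L[𝕜] G) = finrank 𝕜 F * finrank 𝕜 G := by
  rw [← (LinearMap.toContinuousLinearMap : (F →ₗ[𝕜] G) ≃ₗ[𝕜] (F →L[𝕜] G)).finrank_eq,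
    Module.finrank_linearMap]

lemma block_net (δ : ℝ) (hδ : 0 < δ) (b j : ℕ) :
    ∃ P : Finset (E →L[𝕜] E),
      P.card ≤ 2 ^ (2 * (b + 2) * finrank ℝ 𝕜 * finrank 𝕜 E * 2 ^ j) ∧
      ∀ T : E →L[𝕜] E, sv T (2 ^ j - 1) ≤ δ →
        ∃ Z ∈ P, ‖(T ∘L proj T (2 ^ (j + 1) - 1) - T ∘L proj T (2 ^ j - 1)) - Z‖
            ≤ 2 * (2 : ℝ)⁻¹ ^ b * δ ∧
          finrank 𝕜 (LinearMap.range (((T ∘L proj T (2 ^ (j + 1) - 1) - T ∘L proj T (2 ^ j - 1)) - Z :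
            E →L[𝕜] E) : E →ₗ[𝕜] E)) ≤ 2 * 2 ^ j := by
  classical
  obtain ⟨S1, hS1a, hS1b, hS1c⟩ :=
    exists_net (𝕜 := 𝕜) (F := EuclideanSpace 𝕜 (Fin (2 ^ j)) →L[𝕜] E) b
  obtain ⟨S2, hS2a, hS2b, hS2c⟩ :=
    exists_net (𝕜 := 𝕜) (F := E →L[𝕜] EuclideanSpace 𝕜 (Fin (2 ^ j))) b
  rw [finrank_clm] at hS1b hS2b
  simp only [finrank_euclideanSpace, Fintype.card_fin] at hS1b hS2b
  refine ⟨(S1 ×ˢ S2).image fun z => (δ : 𝕜) • (z.1 ∘L z.2), ?_, ?_⟩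
  · refine Finset.card_image_le.trans ?_
    rw [Finset.card_product]
    refine (Nat.mul_le_mul hS1b hS2b).trans ?_
    rw [← pow_add]
    refine Nat.pow_le_pow_right (by norm_num) (le_of_eq ?_)
    ring
  · intro T hT
    set a := 2 ^ j - 1 with ha
    have haR : 2 ^ (j + 1) - 1 = a + 2 ^ j := by
      have : 0 < 2 ^ j := by positivity
      rw [pow_succ]; omega
    rw [haR, ← Xb_comp_Yb]
    set X := Xb T a (2 ^ j)
    set Y := Yb T a (2 ^ j)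
    have hX : ‖((δ⁻¹ : ℝ) : 𝕜) • X‖ ≤ 1 := by
      rw [norm_smul, RCLike.norm_ofReal, abs_of_pos (by positivity)]
      have := (Xb_norm_le T a (2 ^ j)).trans hT
      calc δ⁻¹ * ‖X‖ ≤ δ⁻¹ * δ := by gcongr
        _ = 1 := by field_simp
    obtain ⟨x, hx, hx'⟩ := hS1c _ hX
    obtain ⟨y, hy, hy'⟩ := hS2c Y (Yb_norm_le T a (2 ^ j))
    refine ⟨(δ : 𝕜) • (x ∘L y), Finset.mem_image.2 ⟨(x, y), by simp [hx, hy], rfl⟩, ?_, ?_⟩
    · have hid : X ∘L Y - (δ : 𝕜) • (x ∘L y)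
          = (δ : 𝕜) • ((((δ⁻¹ : ℝ) : 𝕜) • X - x) ∘L Y + x ∘L (Y - y)) := by
        have hne : (δ : 𝕜) ≠ 0 := by exact_mod_cast hδ.ne'
        ext v
        simp only [sub_apply, add_apply, ContinuousLinearMap.comp_apply, smul_apply, map_sub,
          smul_sub, smul_add, smul_smul, RCLike.ofReal_inv, mul_inv_cancel₀ hne, one_smul]
        abel
      rw [hid, norm_smul, RCLike.norm_ofReal, abs_of_pos hδ]
      have h1 : ‖(((δ⁻¹ : ℝ) : 𝕜) • X - x) ∘L Y‖ ≤ (2 : ℝ)⁻¹ ^ b := by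
        refine (ContinuousLinearMap.opNorm_comp_le _ _).trans ?_
        have := Yb_norm_le T a (2 ^ j)
        calc ‖((δ⁻¹ : ℝ) : 𝕜) • X - x‖ * ‖Y‖ ≤ (2 : ℝ)⁻¹ ^ b * 1 := by gcongr
          _ = _ := mul_one _
      have h2 : ‖x ∘L (Y - y)‖ ≤ (2 : ℝ)⁻¹ ^ b := by
        refine (ContinuousLinearMap.opNorm_comp_le _ _).trans ?_
        have := hS1a x hx
        calc ‖x‖ * ‖Y - y‖ ≤ 1 * (2 : ℝ)⁻¹ ^ b := by gcongr
          _ = _ := one_mul _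
      have h3 := norm_add_le ((((δ⁻¹ : ℝ) : 𝕜) • X - x) ∘L Y) (x ∘L (Y - y))
      calc δ * ‖(((δ⁻¹ : ℝ) : 𝕜) • X - x) ∘L Y + x ∘L (Y - y)‖
          ≤ δ * ((2 : ℝ)⁻¹ ^ b + (2 : ℝ)⁻¹ ^ b) := by gcongr; linarith
        _ = _ := by ring
    · have h1 := finrank_range_comp_le X Y
      have h2 := finrank_range_comp_le (-(δ : 𝕜) • x) y
      have h3 := finrank_range_add_le (X ∘L Y) ((-(δ : 𝕜) • x) ∘L y) _ _ h1 h2
      have h4 : X ∘L Y - (δ : 𝕜) • (x ∘L y) = X ∘L Y + (-(δ : 𝕜) • x) ∘L y := by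
        ext v; simp [sub_eq_add_neg]
      rw [h4]
      omega

lemma cover (δ θ : ℝ) (hδ : 0 < δ) (hθ : 0 < θ) (β' : ℕ) (hβ : 1 ≤ θ * 2 ^ β') (J : ℕ) :
    ∃ M : Finset (E →L[𝕜] E),
      M.card ≤ 2 ^ (4 * (β' + 2) * finrank ℝ 𝕜 * finrank 𝕜 E * 2 ^ J) ∧
      ∀ T : E →L[𝕜] E, (∀ j < J, sv T (2 ^ j - 1) ≤ δ * θ ^ j) →
        ∃ m ∈ M, ‖T ∘L proj T (2 ^ J - 1) - m‖ ≤ 2 * δ * θ ^ J ∧
          finrank 𝕜 (LinearMap.range ((T ∘L proj T (2 ^ J - 1) - m : E →L[𝕜] E) : E →ₗ[𝕜] E))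
            ≤ 2 * 2 ^ J := by
  classical
  set β := β' + 1 with hβdef
  have hβ2 : 2 ≤ θ * 2 ^ β := by rw [hβdef, pow_succ]; linarith
  have key : ∀ J' ≤ J, ∃ M : Finset (E →L[𝕜] E),
      M.card ≤ 2 ^ (2 * finrank ℝ 𝕜 * finrank 𝕜 E * 2 ^ J' * (β * (J - J') + 2 * β + 2)) ∧
      ∀ T : E →L[𝕜] E, (∀ j < J', sv T (2 ^ j - 1) ≤ δ * θ ^ j) →
        ∃ m ∈ M, ‖T ∘L proj T (2 ^ J' - 1) - m‖ ≤ 2 * δ * θ ^ J' * (2 : ℝ)⁻¹ ^ (β * (J - J')) ∧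
          finrank 𝕜 (LinearMap.range ((T ∘L proj T (2 ^ J' - 1) - m : E →L[𝕜] E) : E →ₗ[𝕜] E))
            ≤ 2 * 2 ^ J' := by
    intro J' hJ'
    induction J' with
    | zero =>
      refine ⟨{0}, ?_, ?_⟩
      · rw [Finset.card_singleton]; exact Nat.one_le_two_pow
      · intro T _
        have h0 : proj T (2 ^ 0 - 1) = 0 := by ext x; simp [proj_apply]
        refine ⟨0, by simp, ?_, ?_⟩
        · rw [h0]; simp; positivity
        · rw [h0, ContinuousLinearMap.comp_zero, sub_zero]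
          rw [show ((0 : E →L[𝕜] E) : E →ₗ[𝕜] E) = 0 from rfl, LinearMap.range_zero]; simp
    | succ J' ih =>
      obtain ⟨M, hM1, hM2⟩ := ih (by omega)
      obtain ⟨P, hP1, hP2⟩ := block_net (𝕜 := 𝕜) (E := E) (δ * θ ^ J') (by positivity)
        (β * (J - J')) J'
      refine ⟨Finset.image₂ (· + ·) M P, ?_, ?_⟩
      · refine (Finset.card_image₂_le _ _ _).trans ((Nat.mul_le_mul hM1 hP1).trans ?_)
        rw [← pow_add]
        refine Nat.pow_le_pow_right (by norm_num) ?_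
        obtain ⟨l, hl⟩ : ∃ l, J - J' = l + 1 := ⟨J - J' - 1, by omega⟩
        have hl' : J - (J' + 1) = l := by omega
        rw [hl, hl']
        have : 2 * finrank ℝ 𝕜 * finrank 𝕜 E * 2 ^ J' * (β * (l + 1) + 2 * β + 2) +
            2 * (β * (l + 1) + 2) * finrank ℝ 𝕜 * finrank 𝕜 E * 2 ^ J'
            = 2 * finrank ℝ 𝕜 * finrank 𝕜 E * 2 ^ (J' + 1) * (β * l + 2 * β + 2) := by
          rw [pow_succ]; ring
        exact this.le
      · intro T hT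
        obtain ⟨m, hm, hm1, hm2⟩ := hM2 T (fun j hj => hT j (by omega))
        obtain ⟨Z, hZ, hZ1, hZ2⟩ := hP2 T (hT J' (by omega))
        refine ⟨m + Z, Finset.mem_image₂_of_mem hm hZ, ?_, ?_⟩
        · have hid : T ∘L proj T (2 ^ (J' + 1) - 1) - (m + Z)
              = (T ∘L proj T (2 ^ J' - 1) - m) +
                ((T ∘L proj T (2 ^ (J' + 1) - 1) - T ∘L proj T (2 ^ J' - 1)) - Z) := by abel
          rw [hid]
          refine (norm_add_le _ _).trans ((add_le_add hm1 hZ1).trans ?_)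
          obtain ⟨l, hl⟩ : ∃ l, J - J' = l + 1 := ⟨J - J' - 1, by omega⟩
          have hl' : J - (J' + 1) = l := by omega
          rw [hl, hl']
          have h1 : (2 : ℝ)⁻¹ ^ (β * (l + 1)) * 2 ^ β = (2 : ℝ)⁻¹ ^ (β * l) := by
            rw [mul_add, mul_one, pow_add, mul_assoc, ← mul_pow]; norm_num
          have h2 : 2 * δ * θ ^ J' * (2 : ℝ)⁻¹ ^ (β * (l + 1)) +
              2 * (2 : ℝ)⁻¹ ^ (β * (l + 1)) * (δ * θ ^ J')
              = 2 * δ * θ ^ J' * (2 : ℝ)⁻¹ ^ (β * (l + 1)) * 2 := by ring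
          have h3 : 2 * δ * θ ^ (J' + 1) * (2 : ℝ)⁻¹ ^ (β * l)
              = 2 * δ * θ ^ J' * (2 : ℝ)⁻¹ ^ (β * (l + 1)) * (θ * 2 ^ β) := by
            rw [← h1, pow_succ]; ring
          rw [h2, h3]
          gcongr
        · have hid : T ∘L proj T (2 ^ (J' + 1) - 1) - (m + Z)
              = (T ∘L proj T (2 ^ J' - 1) - m) +
                ((T ∘L proj T (2 ^ (J' + 1) - 1) - T ∘L proj T (2 ^ J' - 1)) - Z) := by abel
          rw [hid]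
          have := finrank_range_add_le _ _ _ _ hm2 hZ2
          refine this.trans (le_of_eq ?_)
          ring
  obtain ⟨M, hM1, hM2⟩ := key J le_rfl
  refine ⟨M, ?_, ?_⟩
  · refine hM1.trans (Nat.pow_le_pow_right (by norm_num) (le_of_eq ?_))
    rw [hβdef, Nat.sub_self]; ring
  · intro T hT
    obtain ⟨m, hm, hm1, hm2⟩ := hM2 T hT
    exact ⟨m, hm, by simpa using hm1, hm2⟩

end Pool.Agent.Helper59
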