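import Pool.Agent.Helper59.BM.Exists
import Pool.Agent.Helper83.ConfDim.Defs

/-!
Existence of `n`-dimensional Brownian motion.
-/

open MeasureTheory ProbabilityTheory Filter Topology
open scoped ENNReal NNReal

namespace Pool.Agent.Helper59.BM

lemma S_zero (n k : ℕ) : S n k 0 = 0 := by
  unfold S phi
  rw [cl_of_le_zero (by simp), cl_of_le_zero (by push_cast; linarith [(Nat.cast_nonneg k : (0:ℝ) ≤ k)])]
  simp

lemma B_zero (ω : Om) : B 0 ω = 0 := by
  unfold B
  split_ifs
  · simp [W, D, xx, S_zero]
  · rfl

/-- If `d j` are jointly Gaussian and independent, then the vectors of `n` independent copies are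
independent. -/
lemma indep_pi_swap {Ω : Type*} [MeasurableSpace Ω] {P : Measure Ω} [IsProbabilityMeasure P]
    {n m : ℕ} {d : Fin m → Ω → ℝ} (hd : ∀ j, Measurable (d j)) (hind : iIndepFun d P)
    (hgau : HasGaussianLaw (fun x j => d j x) P) :
    iIndepFun (fun (j : Fin m) (ω : Fin n → Ω) (i : Fin n) => d j (ω i))
      (Measure.pi fun _ => P) := by
  -- the family over the coordinates
  have h1 : iIndepFun (fun (i : Fin n) (ω : Fin n → Ω) (j : Fin m) => d j (ω i))
      (Measure.pi fun _ => P) :=
    iIndepFun_pi (μ := fun _ : Fin n => P) (X := fun _ x j => d j x)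
      (fun _ => (measurable_pi_iff.2 hd).aemeasurable)
  have hmp : ∀ i : Fin n, MeasurePreserving (fun ω : Fin n → Ω => ω i) (Measure.pi fun _ => P) P :=
    fun i => measurePreserving_eval _ i
  have h2 : ∀ i : Fin n, HasGaussianLaw (fun (ω : Fin n → Ω) (j : Fin m) => d j (ω i))
      (Measure.pi fun _ => P) := by
    intro i
    refine ⟨?_⟩
    have h3 : (Measure.pi fun _ => P).map (fun (ω : Fin n → Ω) (j : Fin m) => d j (ω i)) =
        P.map (fun x j => d j x) := by
      have := (hmp i).map_eq
      conv_rhs => rw [← this]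
      rw [Measure.map_map (measurable_pi_iff.2 hd) (hmp i).measurable]
      rfl
    rw [h3]
    exact hgau.isGaussian_map
  have h3 := h1.hasGaussianLaw h2
  -- swap
  have h4 : HasGaussianLaw (fun (ω : Fin n → Ω) (j : Fin m) (i : Fin n) => d j (ω i))
      (Measure.pi fun _ => P) :=
    h3.map_fun (ContinuousLinearMap.pi fun j => ContinuousLinearMap.pi fun i =>
      (ContinuousLinearMap.proj j : (Fin m → ℝ) →L[ℝ] ℝ).comp
        (ContinuousLinearMap.proj i : (Fin n → Fin m → ℝ) →L[ℝ] (Fin m → ℝ)))
  refine HasGaussianLaw.iIndepFun_of_covariance_eval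
    (X := fun (j : Fin m) (i : Fin n) (ω : Fin n → Ω) => d j (ω i)) h4 ?_
  intro j j' hjj' i i'
  by_cases hi : i = i'
  · subst hi
    have h6 : IndepFun (fun ω : Fin n → Ω => d j (ω i)) (fun ω : Fin n → Ω => d j' (ω i))
        (Measure.pi fun _ => P) := by
      have h7 := hind.indepFun hjj'
      rw [indepFun_iff_map_prod_eq_prod_map_map (hd j).aemeasurable (hd j').aemeasurable] at h7
      have m1 : Measurable fun ω : Fin n → Ω => d j (ω i) := (hd j).comp (hmp i).measurable
      have m2 : Measurable fun ω : Fin n → Ω => d j' (ω i) := (hd j').comp (hmp i).measurable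
      rw [indepFun_iff_map_prod_eq_prod_map_map m1.aemeasurable m2.aemeasurable]
      have e1 : (Measure.pi fun _ => P).map (fun ω : Fin n → Ω => (d j (ω i), d j' (ω i))) =
          P.map (fun x => (d j x, d j' x)) := by
        have := (hmp i).map_eq
        conv_rhs => rw [← this]
        rw [Measure.map_map ((hd j).prodMk (hd j')) (hmp i).measurable]
        rfl
      have e2 : ∀ j, (Measure.pi fun _ => P).map (fun ω : Fin n → Ω => d j (ω i)) = P.map (d j) := by
        intro j
        have := (hmp i).map_eq
        conv_rhs => rw [← this]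
        rw [Measure.map_map (hd j) (hmp i).measurable]
        rfl
      have e3 := e2 j
      have e4 := e2 j'
      rw [e1, e3, e4, h7]
    refine h6.covariance_eq_zero ?_ ?_
    · exact ((h4.eval j).eval i).memLp_two
    · exact ((h4.eval j').eval i).memLp_two
  · have h6 : IndepFun (fun ω : Fin n → Ω => d j (ω i)) (fun ω : Fin n → Ω => d j' (ω i'))
        (Measure.pi fun _ => P) := by
      have h7 := (h1.indepFun hi).comp (measurable_pi_apply j) (measurable_pi_apply j')
      exact h7
    refine h6.covariance_eq_zero ?_ ?_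
    · exact ((h4.eval j).eval i).memLp_two
    · exact ((h4.eval j').eval i').memLp_two

variable (n : ℕ)

/-- sample space in dimension `n` -/
abbrev OmN : Type := Fin n → Om

/-- product measure -/
noncomputable def PN : Measure (OmN n) := Measure.pi fun _ => PP

instance : IsProbabilityMeasure (PN n) := by unfold PN; infer_instance

/-- Brownian motion in dimension `n`. -/
noncomputable def BV (t : ℝ≥0) (ω : OmN n) : EuclideanSpace ℝ (Fin n) :=
  WithLp.toLp 2 fun i => B t (ω i)

lemma BV_measurable (t : ℝ≥0) : Measurable (BV n t) := by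
  unfold BV
  have := B_measurable
  fun_prop

lemma BV_continuous (ω : OmN n) : Continuous fun t => BV n t ω := by
  unfold BV
  have := B_continuous
  fun_prop

lemma BV_law (s t : ℝ≥0) : (PN n).map (fun ω (i : Fin n) => (BV n (s + t) ω - BV n s ω) i) =
    Measure.pi fun _ : Fin n => gaussianReal 0 t := by
  have h1 : (fun (ω : OmN n) (i : Fin n) => (BV n (s + t) ω - BV n s ω) i) =
      fun ω i => (fun x => B (s + t) x - B s x) (ω i) := by
    funext ω i
    simp [BV]
  have hm : Measurable fun x => B (s + t) x - B s x := (B_measurable _).sub (B_measurable _)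
  have h2 : PP.map (fun x => B (s + t) x - B s x) = gaussianReal 0 t := by
    have := B_sub_law s (s + t) le_self_add
    rwa [add_tsub_cancel_left] at this
  have h3 : IsProbabilityMeasure (PP.map (fun x => B (s + t) x - B s x)) :=
    Measure.isProbabilityMeasure_map hm.aemeasurable
  rw [h1, PN, Measure.pi_map_pi (fun _ => hm.aemeasurable), h2]

lemma BV_indep : HasIndepIncrements (BV n) (PN n) := by
  intro m t ht
  have hB := B_isBrownianReal.toIsPreBrownianReal
  have hd : ∀ j : Fin m, Measurable (fun x => B (t j.succ) x - B (t j.castSucc) x) :=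
    fun j => (B_measurable _).sub (B_measurable _)
  have h5 := indep_pi_swap (n := n) hd (hB.hasIndepIncrements m t ht)
    hB.isGaussianProcess.hasGaussianLaw_increments
  have h6 := h5.comp (fun _ v => (WithLp.toLp 2 v : EuclideanSpace ℝ (Fin n))) (fun _ => by fun_prop)
  have h7 : (fun (j : Fin m) (ω : OmN n) => BV n (t j.succ) ω - BV n (t j.castSucc) ω) =
      fun j => (fun v => (WithLp.toLp 2 v : EuclideanSpace ℝ (Fin n))) ∘
        fun ω i => B (t j.succ) (ω i) - B (t j.castSucc) (ω i) := by
    funext j ω
    ext i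
    simp [BV]
  rw [h7]
  exact h6

/-- Existence of Brownian motion in `ℝ^n`. -/
theorem exists_brownian (n : ℕ) : ∃ (Ω : Type) (_ : MeasurableSpace Ω) (P : Measure Ω)
    (B : ℝ≥0 → Ω → EuclideanSpace ℝ (Fin n)),
    IsProbabilityMeasure P ∧ Pool.Agent.Helper83.ConfDim.IsBrownian n P B := by
  refine ⟨OmN n, inferInstance, PN n, BV n, inferInstance, BV_measurable n, ?_, ?_, BV_indep n,
    BV_law n⟩
  · refine ae_of_all _ fun ω => ?_
    ext i
    simp [BV, B_zero]
  · exact ae_of_all _ (BV_continuous n)

end Pool.Agent.Helper59.BM
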