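import Mathlib
import Pool.Agent.Helper59.Cover

set_option autoImplicit false

open Module
open scoped ENNReal

namespace Pool.Agent.Helper59

variable {𝕜 : Type*} [RCLike 𝕜]
  {E : Type*} [NormedAddCommGroup E] [InnerProductSpace 𝕜 E] [FiniteDimensional 𝕜 E]

/-- Schatten quasi-norm of an endomorphism -/
noncomputable def sch (p : ℝ≥0∞) (T : E →L[𝕜] E) : ℝ :=
  if p = ∞ then sv T 0
  else (∑ j ∈ Finset.range (finrank 𝕜 E), sv T j ^ p.toReal) ^ (1 / p.toReal)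

lemma sum_range_sv_le (T : E →L[𝕜] E) {q : ℝ} (hq : 0 < q) (s : Finset ℕ) :
    ∑ i ∈ s, sv T i ^ q ≤ ∑ i ∈ Finset.range (finrank 𝕜 E), sv T i ^ q := by
  rw [← Finset.sum_filter_of_ne (p := fun i => i < finrank 𝕜 E) (s := s)]
  · refine Finset.sum_le_sum_of_subset_of_nonneg ?_ fun _ _ _ => Real.rpow_nonneg (sv_nonneg _ _) _
    intro i hi
    simpa using (Finset.mem_filter.1 hi).2
  · intro i _ hi
    by_contra hcon
    simp only [not_lt] at hcon
    exact hi (by rw [sv_eq_zero T hcon, Real.zero_rpow hq.ne'])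

lemma sum_nonneg' (T : E →L[𝕜] E) (q : ℝ) (s : Finset ℕ) : 0 ≤ ∑ i ∈ s, sv T i ^ q :=
  Finset.sum_nonneg fun i _ => Real.rpow_nonneg (sv_nonneg _ _) _

lemma sch_le_iff (T : E →L[𝕜] E) {q : ℝ≥0∞} (h0 : 0 < q) (hq : q ≠ ∞) {δ : ℝ} (hδ : 0 ≤ δ) :
    sch q T ≤ δ ↔ ∑ i ∈ Finset.range (finrank 𝕜 E), sv T i ^ q.toReal ≤ δ ^ q.toReal := by
  have hqr : 0 < q.toReal := ENNReal.toReal_pos h0.ne' hq
  rw [sch, if_neg hq]
  constructor
  · intro h
    have := Real.rpow_le_rpow (Real.rpow_nonneg (sum_nonneg' T _ _) _) h hqr.le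
    rwa [← Real.rpow_mul (sum_nonneg' T _ _), one_div_mul_cancel hqr.ne', Real.rpow_one]
      at this
  · intro h
    have := Real.rpow_le_rpow (sum_nonneg' T _ _) h (by positivity : 0 ≤ 1 / q.toReal)
    rwa [← Real.rpow_mul hδ, mul_one_div_cancel hqr.ne', Real.rpow_one] at this

/-- decay of singular values -/
lemma sv_decay (T : E →L[𝕜] E) {q : ℝ} (hq : 0 < q) {δ : ℝ} (hδ : 0 ≤ δ)
    (h : ∑ i ∈ Finset.range (finrank 𝕜 E), sv T i ^ q ≤ δ ^ q) (j : ℕ) :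
    sv T (2 ^ j - 1) ≤ δ * ((2 : ℝ) ^ (-(1 / q))) ^ j := by
  have h1 : ∑ i ∈ Finset.range (2 ^ j), sv T i ^ q ≤ δ ^ q := (sum_range_sv_le T hq _).trans h
  have h2 : (2 : ℝ) ^ j * sv T (2 ^ j - 1) ^ q ≤ ∑ i ∈ Finset.range (2 ^ j), sv T i ^ q := by
    have : ∑ i ∈ Finset.range (2 ^ j), sv T (2 ^ j - 1) ^ q = (2 : ℝ) ^ j * sv T (2 ^ j - 1) ^ q := by
      simp
    rw [← this]
    refine Finset.sum_le_sum fun i hi => ?_
    refine Real.rpow_le_rpow (sv_nonneg _ _) (sv_anti T ?_) hq.le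
    have := Finset.mem_range.1 hi
    omega
  have h3 : sv T (2 ^ j - 1) ^ q ≤ δ ^ q * ((2 : ℝ) ^ j)⁻¹ := by
    rw [← div_eq_mul_inv, le_div_iff₀ (by positivity), mul_comm]
    exact h2.trans h1
  have h4 : (δ * ((2 : ℝ) ^ (-(1 / q))) ^ j) ^ q = δ ^ q * ((2 : ℝ) ^ j)⁻¹ := by
    rw [Real.mul_rpow hδ (by positivity)]
    congr 1
    rw [← Real.rpow_natCast, ← Real.rpow_mul (by positivity), ← Real.rpow_mul (by positivity)]
    rw [← Real.rpow_natCast, ← Real.rpow_neg (by positivity)]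
    congr 1
    field_simp
  rw [← h4] at h3
  exact (Real.rpow_le_rpow_iff (sv_nonneg _ _) (by positivity) hq).1 h3

/-- Schatten norm of the error, finite exponent -/
lemma sum_error_le (T E₁ : E →L[𝕜] E) {p q : ℝ} (hq : 0 < q) (hqp : q < p) {δ : ℝ} (hδ : 0 < δ)
    (h : ∑ i ∈ Finset.range (finrank 𝕜 E), sv T i ^ q ≤ δ ^ q) (J : ℕ)
    (h1 : ‖E₁‖ ≤ 2 * δ * ((2 : ℝ) ^ (-(1 / q))) ^ J)
    (h2 : finrank 𝕜 (LinearMap.range (E₁ : E →ₗ[𝕜] E)) ≤ 2 * 2 ^ J) :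
    ∑ i ∈ Finset.range (finrank 𝕜 E), sv (E₁ + (T - T ∘L proj T (2 ^ J - 1))) i ^ p ≤
      (2 * 3 ^ p + 1) * 2 ^ J * (δ * ((2 : ℝ) ^ (-(1 / q))) ^ J) ^ p := by
  set θ : ℝ := (2 : ℝ) ^ (-(1 / q)) with hθ
  have hθ0 : 0 < θ := by positivity
  have hp : 0 < p := hq.trans hqp
  set Z := E₁ + (T - T ∘L proj T (2 ^ J - 1)) with hZ
  set N := finrank 𝕜 E with hN
  set c := δ * θ ^ J with hc
  have hc0 : 0 < c := by positivity
  have hdec : sv T (2 ^ J - 1) ≤ c := sv_decay T hq hδ.le h J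
  have hZn : ‖Z‖ ≤ 3 * c := by
    calc ‖Z‖ ≤ ‖E₁‖ + ‖T - T ∘L proj T (2 ^ J - 1)‖ := norm_add_le _ _
      _ ≤ 2 * δ * θ ^ J + c := add_le_add h1 ((norm_apply_sub_proj_le T _).trans hdec)
      _ = 3 * c := by rw [hc]; ring
  have hA : ∑ i ∈ Finset.range N, sv Z i ^ p ≤ ∑ i ∈ Finset.range (2 * 2 ^ J + N), sv Z i ^ p :=
    Finset.sum_le_sum_of_subset_of_nonneg (Finset.range_mono (by omega))
      fun i _ _ => Real.rpow_nonneg (sv_nonneg _ _) _
  rw [Finset.sum_range_add] at hA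
  have hB : ∑ i ∈ Finset.range (2 * 2 ^ J), sv Z i ^ p ≤ 2 * 3 ^ p * 2 ^ J * c ^ p := by
    have : ∑ i ∈ Finset.range (2 * 2 ^ J), sv Z i ^ p ≤
        ∑ i ∈ Finset.range (2 * 2 ^ J), (3 * c) ^ p :=
      Finset.sum_le_sum fun i _ =>
        Real.rpow_le_rpow (sv_nonneg _ _) ((sv_le_norm Z i).trans hZn) hp.le
    refine this.trans (le_of_eq ?_)
    rw [Finset.sum_const, Finset.card_range, nsmul_eq_mul, Real.mul_rpow (by norm_num) hc0.le]
    push_cast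
    ring
  have hC : ∑ i ∈ Finset.range N, sv Z (2 * 2 ^ J + i) ^ p ≤ 2 ^ J * c ^ p := by
    have hC1 : ∑ i ∈ Finset.range N, sv Z (2 * 2 ^ J + i) ^ p ≤
        ∑ i ∈ Finset.range N, c ^ (p - q) * sv T (2 ^ J - 1 + i) ^ q := by
      refine Finset.sum_le_sum fun i _ => ?_
      have h3 : sv Z (2 * 2 ^ J + i) ≤ sv T (2 ^ J - 1 + i) := sv_perturb T E₁ _ _ i h2
      have h4 : sv T (2 ^ J - 1 + i) ≤ c := (sv_anti T (by omega)).trans hdec
      have h5 := sv_nonneg T (2 ^ J - 1 + i)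
      calc sv Z (2 * 2 ^ J + i) ^ p ≤ sv T (2 ^ J - 1 + i) ^ p :=
            Real.rpow_le_rpow (sv_nonneg _ _) h3 hp.le
        _ = sv T (2 ^ J - 1 + i) ^ (p - q) * sv T (2 ^ J - 1 + i) ^ q := by
            rw [← Real.rpow_add' h5 (by simpa using hp.ne')]; congr 1; ring
        _ ≤ c ^ (p - q) * sv T (2 ^ J - 1 + i) ^ q := by
            gcongr
    refine hC1.trans ?_
    rw [← Finset.mul_sum]
    have hC2 : ∑ i ∈ Finset.range N, sv T (2 ^ J - 1 + i) ^ q ≤ δ ^ q := by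
      have h6 : ∑ i ∈ Finset.range N, sv T (2 ^ J - 1 + i) ^ q
          = ∑ i ∈ (Finset.range N).image (fun i => 2 ^ J - 1 + i), sv T i ^ q := by
        rw [Finset.sum_image (fun a _ b _ hab => by simpa using hab)]
      rw [h6]
      exact (sum_range_sv_le T hq _).trans h
    have hC3 : δ ^ q = 2 ^ J * c ^ q := by
      rw [hc, Real.mul_rpow hδ.le (by positivity)]
      have : (θ ^ J) ^ q = ((2 : ℝ) ^ J)⁻¹ := by
        rw [hθ, ← Real.rpow_natCast, ← Real.rpow_mul (by positivity), ← Real.rpow_mul (by positivity),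
          ← Real.rpow_natCast, ← Real.rpow_neg (by positivity)]
        congr 1
        field_simp
      rw [this]
      field_simp
    calc c ^ (p - q) * ∑ i ∈ Finset.range N, sv T (2 ^ J - 1 + i) ^ q
        ≤ c ^ (p - q) * δ ^ q := by gcongr
      _ = 2 ^ J * (c ^ (p - q) * c ^ q) := by rw [hC3]; ring
      _ = 2 ^ J * c ^ p := by rw [← Real.rpow_add hc0]; congr 2; ring
  calc _ ≤ _ := hA
    _ ≤ 2 * 3 ^ p * 2 ^ J * c ^ p + 2 ^ J * c ^ p := add_le_add hB hC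
    _ = _ := by ring


/-- the constant of the error estimate -/
noncomputable def Cp (p : ℝ≥0∞) : ℝ :=
  if p = ∞ then 3 else (2 * 3 ^ p.toReal + 1) ^ (1 / p.toReal)

lemma Cp_pos (p : ℝ≥0∞) : 0 < Cp p := by
  unfold Cp; split_ifs <;> positivity

lemma sch_error_le (T E₁ : E →L[𝕜] E) {p q : ℝ≥0∞} (hq : 0 < q) (hqp : q < p) {δ : ℝ}
    (hδ : 0 < δ) (h : sch q T ≤ δ) (J : ℕ)
    (h1 : ‖E₁‖ ≤ 2 * δ * ((2 : ℝ) ^ (-(1 / q.toReal))) ^ J)
    (h2 : finrank 𝕜 (LinearMap.range (E₁ : E →ₗ[𝕜] E)) ≤ 2 * 2 ^ J) :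
    sch p (E₁ + (T - T ∘L proj T (2 ^ J - 1))) ≤
      Cp p * δ * (2 : ℝ) ^ (-(J * ((q⁻¹).toReal - (p⁻¹).toReal))) := by
  have hqt : q ≠ ∞ := ne_top_of_lt hqp
  have hqr : 0 < q.toReal := ENNReal.toReal_pos hq.ne' hqt
  have hsum := (sch_le_iff T hq hqt hδ.le).1 h
  have hθ : ((2 : ℝ) ^ (-(1 / q.toReal))) ^ J = (2 : ℝ) ^ (-(J * (q⁻¹).toReal)) := by
    rw [ENNReal.toReal_inv, ← Real.rpow_natCast, ← Real.rpow_mul (by norm_num)]
    congr 1
    field_simp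
  by_cases hp : p = ∞
  · subst hp
    have hdec := sv_decay T hqr hδ.le hsum J
    rw [sch, if_pos rfl, Cp, if_pos rfl]
    refine (sv_le_norm _ _).trans ((norm_add_le _ _).trans ?_)
    have h3 := (norm_apply_sub_proj_le T (2 ^ J - 1)).trans hdec
    rw [hθ] at h1 h3
    simp only [ENNReal.inv_top, ENNReal.toReal_zero, sub_zero]
    calc _ ≤ _ := add_le_add h1 h3
      _ = _ := by ring
  · have hp0 : 0 < p := hq.trans hqp
    have hpr : 0 < p.toReal := ENNReal.toReal_pos hp0.ne' hp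
    have hqp' : q.toReal < p.toReal := (ENNReal.toReal_lt_toReal hqt hp).2 hqp
    have h3 := sum_error_le T E₁ hqr hqp' hδ hsum J h1 h2
    have hC := Cp_pos p
    refine (sch_le_iff _ hp0 hp (by positivity)).2 (h3.trans (le_of_eq ?_))
    rw [Real.mul_rpow (by positivity) (by positivity), Real.mul_rpow (by positivity) (by positivity),
      Real.mul_rpow (by positivity) (by positivity), Cp, if_neg hp,
      ← Real.rpow_mul (by positivity), one_div_mul_cancel hpr.ne', Real.rpow_one, hθ,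
      ← Real.rpow_mul (by positivity), ← Real.rpow_mul (by positivity)]
    have h4 : (2 : ℝ) ^ J * (2 : ℝ) ^ (-(J * (q⁻¹).toReal) * p.toReal)
        = (2 : ℝ) ^ (-(J * ((q⁻¹).toReal - (p⁻¹).toReal)) * p.toReal) := by
      rw [← Real.rpow_natCast, ← Real.rpow_add (by norm_num)]
      congr 1
      rw [ENNReal.toReal_inv, ENNReal.toReal_inv]
      field_simp
      ring
    rw [← h4]
    ring

lemma sch_smul_le (T : E →L[𝕜] E) {p : ℝ≥0∞} (hp0 : 0 < p) {c a : ℝ} (hc : 0 < c) (ha : 0 ≤ a)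
    (h : sch p T ≤ a) : sch p ((c : 𝕜) • T) ≤ c * a := by
  by_cases hp : p = ∞
  · subst hp
    rw [sch, if_pos rfl] at h ⊢
    exact (sv_smul_le c hc.le T 0).trans (by gcongr)
  · have hpr : 0 < p.toReal := ENNReal.toReal_pos hp0.ne' hp
    rw [sch_le_iff _ hp0 hp (by positivity)]
    rw [sch_le_iff _ hp0 hp ha] at h
    calc ∑ i ∈ Finset.range (finrank 𝕜 E), sv ((c : 𝕜) • T) i ^ p.toReal
        ≤ ∑ i ∈ Finset.range (finrank 𝕜 E), c ^ p.toReal * sv T i ^ p.toReal := by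
          refine Finset.sum_le_sum fun i _ => ?_
          rw [← Real.mul_rpow hc.le (sv_nonneg _ _)]
          exact Real.rpow_le_rpow (sv_nonneg _ _) (sv_smul_le c hc.le T i) hpr.le
      _ ≤ c ^ p.toReal * a ^ p.toReal := by rw [← Finset.mul_sum]; gcongr
      _ = (c * a) ^ p.toReal := (Real.mul_rpow hc.le ha).symm

lemma norm_le_of_sch_le (T : E →L[𝕜] E) {p : ℝ≥0∞} (hp0 : 0 < p) {a : ℝ} (ha : 0 ≤ a)
    (h : sch p T ≤ a) : ‖T‖ ≤ a := by
  refine (norm_le_sv_zero T).trans ?_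
  by_cases hp : p = ∞
  · subst hp
    rwa [sch, if_pos rfl] at h
  · have hpr : 0 < p.toReal := ENNReal.toReal_pos hp0.ne' hp
    rw [sch_le_iff _ hp0 hp ha] at h
    have h1 : ∑ i ∈ Finset.range 1, sv T i ^ p.toReal ≤ a ^ p.toReal :=
      (sum_range_sv_le T hpr _).trans h
    rw [Finset.sum_range_one] at h1
    exact (Real.rpow_le_rpow_iff (sv_nonneg _ _) ha hpr).1 h1

lemma unit_ball_nhds {p : ℝ≥0∞} (hp0 : 0 < p) : {T : E →L[𝕜] E | sch p T ≤ 1} ∈ nhds 0 := by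
  by_cases hp : p = ∞
  · subst hp
    refine Filter.mem_of_superset (Metric.ball_mem_nhds 0 one_pos) fun T hT => ?_
    simp only [Set.mem_ofPred_eq, sch, if_true]
    rw [mem_ball_zero_iff] at hT
    exact (sv_le_norm T 0).trans hT.le
  · have hpr : 0 < p.toReal := ENNReal.toReal_pos hp0.ne' hp
    set N := finrank 𝕜 E
    set ε : ℝ := ((N : ℝ) + 1) ^ (-(1 / p.toReal)) with hε
    have hε0 : 0 < ε := by positivity
    refine Filter.mem_of_superset (Metric.ball_mem_nhds 0 hε0) fun T hT => ?_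
    rw [mem_ball_zero_iff] at hT
    simp only [Set.mem_ofPred_eq]
    rw [sch_le_iff _ hp0 hp zero_le_one, Real.one_rpow]
    calc ∑ i ∈ Finset.range N, sv T i ^ p.toReal ≤ ∑ i ∈ Finset.range N, ε ^ p.toReal :=
          Finset.sum_le_sum fun i _ => Real.rpow_le_rpow (sv_nonneg _ _)
            ((sv_le_norm T i).trans hT.le) hpr.le
      _ = N * ((N : ℝ) + 1)⁻¹ := by
          rw [Finset.sum_const, Finset.card_range, nsmul_eq_mul, hε, ← Real.rpow_mul (by positivity)]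
          congr 1
          rw [← Real.rpow_neg_one]
          congr 1
          field_simp
      _ ≤ 1 := by
          rw [← div_eq_mul_inv, div_le_one (by positivity)]
          linarith

/-- inclusion of Schatten balls -/
lemma sch_mono (T : E →L[𝕜] E) {p q : ℝ≥0∞} (hq : 0 < q) (hqp : q ≤ p) {δ : ℝ} (hδ : 0 < δ)
    (h : sch q T ≤ δ) : sch p T ≤ δ := by
  rcases hqp.eq_or_lt with rfl | hqp
  · exact h
  have hqt : q ≠ ∞ := ne_top_of_lt hqp
  have hqr : 0 < q.toReal := ENNReal.toReal_pos hq.ne' hqt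
  have hn : sv T 0 ≤ δ := (sv_le_norm T 0).trans (norm_le_of_sch_le T hq hδ.le h)
  by_cases hp : p = ∞
  · subst hp
    rwa [sch, if_pos rfl]
  · have hp0 : 0 < p := hq.trans hqp
    have hpr : 0 < p.toReal := ENNReal.toReal_pos hp0.ne' hp
    have hqp' : q.toReal < p.toReal := (ENNReal.toReal_lt_toReal hqt hp).2 hqp
    rw [sch_le_iff _ hq hqt hδ.le] at h
    rw [sch_le_iff _ hp0 hp hδ.le]
    calc ∑ i ∈ Finset.range (finrank 𝕜 E), sv T i ^ p.toReal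
        ≤ ∑ i ∈ Finset.range (finrank 𝕜 E), δ ^ (p.toReal - q.toReal) * sv T i ^ q.toReal := by
          refine Finset.sum_le_sum fun i _ => ?_
          have h5 := sv_nonneg T i
          have h6 : sv T i ≤ δ := (sv_anti T (Nat.zero_le i)).trans hn
          calc sv T i ^ p.toReal = sv T i ^ (p.toReal - q.toReal) * sv T i ^ q.toReal := by
                rw [← Real.rpow_add' h5 (by simpa using hpr.ne')]; congr 1; ring
            _ ≤ _ := by
              gcongr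
      _ ≤ δ ^ (p.toReal - q.toReal) * δ ^ q.toReal := by rw [← Finset.mul_sum]; gcongr
      _ = δ ^ p.toReal := by rw [← Real.rpow_add hδ]; congr 1; ring

variable [CompleteSpace E]

/-- main step -/
lemma main_step {p q : ℝ≥0∞} (hq : 0 < q) (hqp : q < p) (L : Submodule 𝕜 (E →L[𝕜] E)) {δ : ℝ}
    (hδ : 0 < δ)
    (h : ∀ T : E →L[𝕜] E, sch p T ≤ 1 → ∃ B ∈ L, sch q (T - B) ≤ δ) (J : ℕ)
    (hJ : 4 * (⌈1 / q.toReal⌉₊ + 2) * finrank 𝕜 E * 2 ^ J < finrank 𝕜 (E →L[𝕜] E) - finrank 𝕜 L) :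
    1 / 2 < Cp p * δ * (2 : ℝ) ^ (-(J * ((q⁻¹).toReal - (p⁻¹).toReal))) := by
  by_contra hcon
  push Not at hcon
  have hqt : q ≠ ∞ := ne_top_of_lt hqp
  have hqr : 0 < q.toReal := ENNReal.toReal_pos hq.ne' hqt
  have hp0 : 0 < p := hq.trans hqp
  set θ : ℝ := (2 : ℝ) ^ (-(1 / q.toReal)) with hθ
  have hθ0 : 0 < θ := by positivity
  have hβ : 1 ≤ θ * 2 ^ ⌈1 / q.toReal⌉₊ := by
    rw [hθ, ← Real.rpow_natCast, ← Real.rpow_add (by norm_num)]
    refine Real.one_le_rpow (by norm_num) ?_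
    have := Nat.le_ceil (1 / q.toReal)
    linarith
  obtain ⟨M, hM1, hM2⟩ := cover (𝕜 := 𝕜) (E := E) δ θ hδ hθ0 _ hβ J
  have hvol := volume_quotient L {T : E →L[𝕜] E | sch p T ≤ 1} (by
      refine (Metric.isBounded_iff_subset_closedBall 0).2 ⟨1, fun T hT => ?_⟩
      rw [mem_closedBall_zero_iff]
      exact norm_le_of_sch_le T hp0 zero_le_one hT)
    (unit_ball_nhds hp0) M (1 / 2) (by norm_num) (by
      intro T hT
      obtain ⟨B, hB, hTB⟩ := h T hT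
      set X := T - B with hX
      have hsum := (sch_le_iff X hq hqt hδ.le).1 hTB
      obtain ⟨m, hm, hm1, hm2⟩ := hM2 X (fun j _ => sv_decay X hqr hδ.le hsum j)
      refine ⟨m, hm, B, hB, ((2 : ℝ) : 𝕜) • (X - m), ?_, ?_⟩
      · have h3 := sch_error_le X (X ∘L proj X (2 ^ J - 1) - m) hq hqp hδ hTB J hm1 hm2
        have h4 : X ∘L proj X (2 ^ J - 1) - m + (X - X ∘L proj X (2 ^ J - 1)) = X - m := by abel
        rw [h4] at h3
        have h5 := sch_smul_le (X - m) hp0 (c := 2) (a := 1 / 2) (by norm_num) (by norm_num)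
          (h3.trans hcon)
        simpa using h5
      · rw [smul_smul]
        have : (((1 / 2 : ℝ) : 𝕜) * ((2 : ℝ) : 𝕜)) = 1 := by
          rw [← RCLike.ofReal_mul]; norm_num
        rw [this, one_smul, hX]
        abel)
  have hκ : 0 < finrank ℝ 𝕜 := Module.finrank_pos
  set K := finrank 𝕜 (E →L[𝕜] E) - finrank 𝕜 L with hK
  have h6 : (2 : ℝ) ^ (finrank ℝ 𝕜 * K) ≤ M.card := by
    have h7 : ((1 / 2 : ℝ)) ^ (finrank ℝ 𝕜 * K) * 2 ^ (finrank ℝ 𝕜 * K) = 1 := by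
      rw [← mul_pow]; norm_num
    calc (2 : ℝ) ^ (finrank ℝ 𝕜 * K) = 1 * 2 ^ (finrank ℝ 𝕜 * K) := (one_mul _).symm
      _ ≤ (M.card * (1 / 2) ^ (finrank ℝ 𝕜 * K)) * 2 ^ (finrank ℝ 𝕜 * K) := by gcongr
      _ = M.card := by rw [mul_assoc, h7, mul_one]
  have h7 : 2 ^ (finrank ℝ 𝕜 * K) ≤ M.card := by exact_mod_cast h6
  have h8 := h7.trans hM1
  have h9 := (Nat.pow_le_pow_iff_right (by norm_num : 1 < 2)).1 h8
  have h10 : finrank ℝ 𝕜 * K ≤ finrank ℝ 𝕜 * (4 * (⌈1 / q.toReal⌉₊ + 2) * finrank 𝕜 E * 2 ^ J) := by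
    refine h9.trans (le_of_eq ?_)
    ring
  have h11 := Nat.le_of_mul_le_mul_left h10 hκ
  omega

omit [CompleteSpace E] in
lemma trivial_step {p q : ℝ≥0∞} (hq : 0 < q) (hqp : q ≤ p) (L : Submodule 𝕜 (E →L[𝕜] E)) {δ : ℝ}
    (hδ : 0 < δ)
    (h : ∀ T : E →L[𝕜] E, sch p T ≤ 1 → ∃ B ∈ L, sch q (T - B) ≤ δ)
    (hL : 0 < finrank 𝕜 (E →L[𝕜] E) - finrank 𝕜 L) : 1 ≤ δ := by
  by_contra hcon
  push Not at hcon
  have hp0 : 0 < p := hq.trans_le hqp
  have hvol := volume_quotient L {T : E →L[𝕜] E | sch p T ≤ 1} (by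
      refine (Metric.isBounded_iff_subset_closedBall 0).2 ⟨1, fun T hT => ?_⟩
      rw [mem_closedBall_zero_iff]
      exact norm_le_of_sch_le T hp0 zero_le_one hT)
    (unit_ball_nhds hp0) {0} δ hδ (by
      intro T hT
      obtain ⟨B, hB, hTB⟩ := h T hT
      refine ⟨0, by simp, B, hB, ((δ⁻¹ : ℝ) : 𝕜) • (T - B), ?_, ?_⟩
      · have h3 := sch_mono (T - B) hq hqp hδ hTB
        have h5 := sch_smul_le (T - B) hp0 (c := δ⁻¹) (a := δ) (by positivity) hδ.le h3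
        rwa [inv_mul_cancel₀ hδ.ne'] at h5
      · rw [smul_smul, ← RCLike.ofReal_mul, mul_inv_cancel₀ hδ.ne']
        simp)
  have hκ : 0 < finrank ℝ 𝕜 := Module.finrank_pos
  set K := finrank 𝕜 (E →L[𝕜] E) - finrank 𝕜 L with hK
  rw [Finset.card_singleton, Nat.cast_one, one_mul] at hvol
  have : δ ^ (finrank ℝ 𝕜 * K) < 1 := pow_lt_one₀ hδ.le hcon (by positivity)
  linarith

end Pool.Agent.Helper59
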